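import Pool.Agent.Y353.FD.Decay

/-!
Project FD (helper353): values of random polynomials at given integers.
-/

set_option autoImplicit false

namespace Pool.Agent.Y353.FD

open Finset Filter

/-- the excluded primes -/
def WdP {k : ℕ} (a : Fin k → ℤ) (d : ℤ) : ℕ :=
  d.natAbs * (∏ l, (a l).natAbs) * ∏ l, ∏ l' ∈ univ.erase l, (a l - a l').natAbs

theorem WdP_pos {k : ℕ} {a : Fin k → ℤ} (ha : Function.Injective a) (ha2 : ∀ l, 2 ≤ (a l).natAbs)
    {d : ℤ} (hd : d ≠ 0) : 0 < WdP a d := by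
  unfold WdP
  refine Nat.mul_pos (Nat.mul_pos (Int.natAbs_pos.2 hd) ?_) ?_
  · exact prod_pos fun l _ => by have := ha2 l; omega
  · refine prod_pos fun l _ => prod_pos fun l' hl' => ?_
    apply Int.natAbs_pos.2
    rw [sub_ne_zero]
    intro h
    exact (mem_erase.1 hl').1 (ha h).symm

theorem isUnit_of_dvd {m W : ℕ} (hmW : m.Coprime W) {y : ℤ} (hy : y.natAbs ∣ W) :
    IsUnit ((y : ℤ) : ZMod m) := by
  rw [ZMod.coe_int_isUnit_iff_isCoprime]
  rw [Int.isCoprime_iff_gcd_eq_one]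
  have h1 : Nat.Coprime m y.natAbs := hmW.coprime_dvd_right hy
  rw [Int.gcd_eq_natAbs_gcd_natAbs]
  simpa using h1

theorem units_WdP {k m : ℕ} {a : Fin k → ℤ} {d : ℤ} (h : m.Coprime (WdP a d)) :
    IsUnit ((d : ℤ) : ZMod m) ∧ (∀ l, IsUnit ((a l : ℤ) : ZMod m)) ∧
      ∀ l l', l ≠ l' → IsUnit ((a l - a l' : ℤ) : ZMod m) := by
  unfold WdP at h
  refine ⟨isUnit_of_dvd h ?_, fun l => isUnit_of_dvd h ?_, fun l l' hll => isUnit_of_dvd h ?_⟩
  · exact dvd_mul_of_dvd_left (dvd_mul_right _ _) _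
  · exact dvd_mul_of_dvd_left (dvd_mul_of_dvd_right (dvd_prod_of_mem _ (mem_univ l)) _) _
  · apply dvd_mul_of_dvd_right
    refine Dvd.dvd.trans ?_ (dvd_prod_of_mem _ (mem_univ l))
    exact dvd_prod_of_mem (fun l' => (a l - a l').natAbs) (mem_erase.2 ⟨hll.symm, mem_univ l'⟩)

/-- the digit map of a polynomial -/
def vP {k : ℕ} (a : Fin k → ℤ) (L : ℕ) : Fin L → Fin k → ℤ := fun i l => a l ^ (i : ℕ)

/-- the constant -/
noncomputable def kap {k : ℕ} (a : Fin k → ℤ) : ℝ := 1 / (4 * ∏ l, (1 + (a l).natAbs) : ℕ)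

theorem kap_pos {k : ℕ} (a : Fin k → ℤ) : 0 < kap a := by
  unfold kap
  have : 0 < 4 * ∏ l, (1 + (a l).natAbs) := by
    apply Nat.mul_pos (by norm_num)
    exact prod_pos fun l _ => by omega
  positivity

theorem manyGood_poly {k : ℕ} (a : Fin k → ℤ) (ha2 : ∀ l, 2 ≤ (a l).natAbs) (L : ℕ)
    (D : Finset ℤ) {d1 d2 : ℤ} (h1 : d1 ∈ D) (h2 : d2 ∈ D) (hne : d1 ≠ d2) :
    ManyGood (WdP a (d1 - d2)) k D.card (kap a) L (fun _ : Fin L => D) (vP a L) := by
  classical
  intro m K hm hmK hmW b hb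
  have hmz : NeZero m := ⟨hm.ne'⟩
  obtain ⟨hud, hua, huu⟩ := units_WdP hmW
  set good : Fin L → Prop := fun i =>
    kap a * m ≤ nn (((d1 - d2) * ∑ l, vP a L i l * b l : ℤ) : ZMod m) with hgood
  refine ⟨univ.filter good, ?_, ?_⟩
  · rcases Nat.eq_zero_or_pos (K + k) with h0 | h0
    · rw [h0, Nat.div_zero]; exact Nat.zero_le _
    apply windows h0 good
    intro q hq
    by_contra hcon
    push Not at hcon
    apply hb
    set w : Fin k → ZMod m := fun l => (((d1 - d2) * b l : ℤ) : ZMod m) * (a l : ZMod m) ^ (q * (K + k))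
      with hw
    have hw0 : ∀ l, w l = 0 := by
      apply grow K hmK k a w ha2 huu
      intro i hi
      have hlt : q * (K + k) + i < L := by
        have : (q + 1) * (K + k) = q * (K + k) + (K + k) := by ring
        omega
      have h3 := hcon ⟨q * (K + k) + i, hlt⟩ (by simp)
        (by
          have : (q + 1) * (K + k) = q * (K + k) + (K + k) := by ring
          simp only
          omega)
      rw [hgood] at h3
      simp only [not_le] at h3
      have e1 : (((d1 - d2) * ∑ l, vP a L ⟨q * (K + k) + i, hlt⟩ l * b l : ℤ) : ZMod m) =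
          ∑ l, w l * (a l : ZMod m) ^ i := by
        rw [mul_sum, Int.cast_sum]
        refine sum_congr rfl fun l _ => ?_
        simp only [hw, vP]
        push_cast
        ring
      rw [e1] at h3
      have hC : (0 : ℝ) < ((4 * ∏ l, (1 + (a l).natAbs) : ℕ) : ℝ) := by
        have := kap_pos a
        unfold kap at this
        exact one_div_pos.1 this
      have h4 : ((4 * ∏ l, (1 + (a l).natAbs) : ℕ) : ℝ) *
          (nn (∑ l, w l * (a l : ZMod m) ^ i) : ℝ) < m := by
        unfold kap at h3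
        rw [one_div, inv_mul_eq_div, lt_div_iff₀ hC] at h3
        linarith
      have h5 : (4 * ∏ l, (1 + (a l).natAbs)) * nn (∑ l, w l * (a l : ZMod m) ^ i) < m := by
        exact_mod_cast h4
      exact h5.le
    intro l
    have h3 := hw0 l
    simp only [hw] at h3
    have h4 := (((hua l).pow (q * (K + k))).mul_left_eq_zero).1 h3
    push_cast at h4
    have h6 : (((b l : ℤ)) : ZMod m) = 0 := by
      have h5 := hud
      push_cast at h5
      exact (h5.mul_right_eq_zero).1 h4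
    exact (ZMod.intCast_zmod_eq_zero_iff_dvd _ _).1 h6
  · intro i hi
    exact ⟨le_rfl, d1, h1, d2, h2, hne, (mem_filter.1 hi).2⟩

end Pool.Agent.Y353.FD
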