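import Pool.Agent.Y353.FD.Poly

/-!
Project FD (helper353): digital maps with mirrored digits.
-/

set_option autoImplicit false

namespace Pool.Agent.Y353.FD

open Finset

/-- `x g ^ i + y g ^ (-i)` is not small on long windows -/
theorem grow2 {m : ℕ} [NeZero m] (K : ℕ) (hK : m < 2 ^ K) (g : ℤ) (hg : 2 ≤ g.natAbs) (γ : ZMod m)
    (hγ : γ * (g : ZMod m) = 1) (hg2 : IsUnit ((1 - g * g : ℤ) : ZMod m)) (x y : ZMod m)
    (h : ∀ i < K + 2, 4 * (1 + g.natAbs) ^ 2 * nn (x * (g : ZMod m) ^ i + y * γ ^ i) ≤ m) :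
    x = 0 ∧ y = 0 := by
  have hm : 0 < m := Nat.pos_of_ne_zero (NeZero.ne m)
  set s : ℕ → ZMod m := fun i => x * (g : ZMod m) ^ i + y * γ ^ i with hs
  set t : ℕ → ZMod m := fun i => s (i + 1) + ((-g : ℤ) : ZMod m) * s i with ht
  have hγi : ∀ i, γ ^ i = (g : ZMod m) * γ ^ (i + 1) := by
    intro i
    rw [pow_succ, mul_comm (γ ^ i), ← mul_assoc, mul_comm (g : ZMod m) γ, hγ, one_mul]
  have ht1 : ∀ i, t i = y * ((1 - g * g : ℤ) : ZMod m) * γ ^ (i + 1) := by
    intro i
    simp only [ht, hs]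
    rw [hγi i]
    push_cast
    ring
  have ht2 : ∀ i, t i = (g : ZMod m) * t (i + 1) := by
    intro i
    rw [ht1, ht1, hγi (i + 1)]
    ring
  have hb : ∀ i < K + 1, 4 * (1 + g.natAbs) * nn (t i) ≤ m := by
    intro i hi
    have b1 := h i (by omega)
    have b2 := h (i + 1) (by omega)
    have b3 : nn (t i) ≤ nn (s (i + 1)) + g.natAbs * nn (s i) := by
      refine (nn_add_le _ _).trans ?_
      have := nn_mul_le (-g) (s i)
      rw [Int.natAbs_neg] at this
      omega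
    have b4 : (1 + g.natAbs) * (4 * (1 + g.natAbs) * nn (t i)) ≤ (1 + g.natAbs) * m := by
      calc (1 + g.natAbs) * (4 * (1 + g.natAbs) * nn (t i))
          ≤ (1 + g.natAbs) * (4 * (1 + g.natAbs) * (nn (s (i + 1)) + g.natAbs * nn (s i))) := by
            gcongr
        _ = 4 * (1 + g.natAbs) ^ 2 * nn (s (i + 1)) +
            g.natAbs * (4 * (1 + g.natAbs) ^ 2 * nn (s i)) := by ring
        _ ≤ m + g.natAbs * m := by gcongr
        _ = _ := by ring
    exact Nat.le_of_mul_le_mul_left b4 (by omega)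
  have hsmall : ∀ z : ZMod m, 4 * (1 + g.natAbs) * nn z ≤ m → 2 * (g.natAbs * nn z) < m := by
    intro z hz
    have b2 : 4 * g.natAbs * nn z ≤ 4 * (1 + g.natAbs) * nn z := by
      gcongr
      omega
    have b3 : 4 * g.natAbs * nn z = 2 * (2 * (g.natAbs * nn z)) := by ring
    omega
  have h1 : t K = 0 := by
    have := geo g hg (fun j => t (K - j)) K hK
      (by
        intro j hj
        have e1 : K - j = K - (j + 1) + 1 := by omega
        rw [e1]
        exact ht2 _)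
      (by
        intro j _
        exact hsmall _ (hb (K - j) (by omega)))
    simpa using this
  have hγu : IsUnit γ := IsUnit.of_mul_eq_one _ hγ
  have hy : y = 0 := by
    rw [ht1] at h1
    have h2 := ((hγu.pow (K + 1)).mul_left_eq_zero).1 h1
    exact (hg2.mul_left_eq_zero).1 h2
  refine ⟨?_, hy⟩
  have h3 : ∀ i, s i = x * (g : ZMod m) ^ i := by
    intro i
    simp only [hs]
    rw [hy, zero_mul, add_zero]
  have h4 : s 0 = 0 := by
    apply geo g hg s K hK
    · intro i _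
      rw [h3, h3]
      ring
    · intro i hi
      apply hsmall
      have b1 := h i (by omega)
      have b5 : 4 * (1 + g.natAbs) * nn (s i) ≤ 4 * (1 + g.natAbs) ^ 2 * nn (s i) := by
        gcongr
        rw [sq]
        exact Nat.le_mul_of_pos_left _ (by omega)
      exact b5.trans b1
  have := h3 0
  rw [h4, pow_zero, mul_one] at this
  exact this.symm

/-- the excluded primes -/
def WdM (g : ℕ) : ℕ := g * (g * g - 1)

theorem WdM_pos {g : ℕ} (hg : 2 ≤ g) : 0 < WdM g := by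
  unfold WdM
  have : 4 ≤ g * g := Nat.mul_le_mul hg hg
  exact Nat.mul_pos (by omega) (by omega)

theorem units_WdM {g m : ℕ} (hg : 2 ≤ g) (h : m.Coprime (WdM g)) :
    IsUnit ((g : ℤ) : ZMod m) ∧ IsUnit ((1 - (g : ℤ) * g : ℤ) : ZMod m) := by
  unfold WdM at h
  have h4 : 4 ≤ g * g := Nat.mul_le_mul hg hg
  refine ⟨isUnit_of_dvd h ?_, isUnit_of_dvd h ?_⟩
  · rw [Int.natAbs_natCast]
    exact dvd_mul_right _ _
  · have : (1 - (g : ℤ) * g).natAbs = g * g - 1 := by
      have e1 : ((g * g : ℕ) : ℤ) = (g : ℤ) * g := by push_cast; ring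
      rw [← e1]
      omega
    rw [this]
    exact dvd_mul_left _ _

/-- the constant -/
noncomputable def kapM (g : ℕ) : ℝ := 1 / (4 * (1 + g) ^ 2 : ℕ)

theorem kapM_pos (g : ℕ) : 0 < kapM g := by
  unfold kapM
  positivity

/-- The general window lemma for mirrored digits: if the two frequencies `x`, `y` do not both vanish
modulo `m` then in every window some `x g ^ i + y g ^ (T - i)` is far from the multiples of `m`. -/
theorem mirror_window {g m : ℕ} (hg : 2 ≤ g) [NeZero m] (hmW : m.Coprime (WdM g)) (K : ℕ)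
    (hK : m < 2 ^ K) (T i0 : ℕ) (hT : i0 + K + 2 ≤ T + 1) (x y : ℤ)
    (h : ∀ i : ℕ, i0 ≤ i → i < i0 + (K + 2) →
      ¬ kapM g * m ≤ nn ((x * (g : ℤ) ^ i + y * (g : ℤ) ^ (T - i) : ℤ) : ZMod m)) :
    (m : ℤ) ∣ x ∧ (m : ℤ) ∣ y := by
  obtain ⟨hu, hu2⟩ := units_WdM hg hmW
  obtain ⟨γ, hγ'⟩ := hu.exists_left_inv
  have hγ : γ * ((g : ℤ) : ZMod m) = 1 := hγ'
  have hγp : ∀ i ≤ T, ((g : ℤ) : ZMod m) ^ (T - i) = ((g : ℤ) : ZMod m) ^ T * γ ^ i := by
    intro i hi
    have e1 : ((g : ℤ) : ZMod m) ^ T = ((g : ℤ) : ZMod m) ^ (T - i) * ((g : ℤ) : ZMod m) ^ i := by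
      rw [← pow_add]; congr 1; omega
    rw [e1, mul_assoc, ← mul_pow, mul_comm _ γ, hγ, one_pow, mul_one]
  have hgn : ((g : ℕ) : ℤ).natAbs = g := Int.natAbs_natCast g
  have hmain := grow2 K hK (g : ℤ) (by rw [hgn]; exact hg) γ hγ hu2
    ((x : ZMod m) * ((g : ℤ) : ZMod m) ^ i0) ((y : ZMod m) * ((g : ℤ) : ZMod m) ^ T * γ ^ i0)
    (by
      intro i hi
      have h3 := h (i0 + i) (by omega) (by omega)
      rw [not_le] at h3
      have e1 : ((x * (g : ℤ) ^ (i0 + i) + y * (g : ℤ) ^ (T - (i0 + i)) : ℤ) : ZMod m) =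
          (x : ZMod m) * ((g : ℤ) : ZMod m) ^ i0 * ((g : ℤ) : ZMod m) ^ i +
            (y : ZMod m) * ((g : ℤ) : ZMod m) ^ T * γ ^ i0 * γ ^ i := by
        rw [Int.cast_add, Int.cast_mul, Int.cast_mul, Int.cast_pow, Int.cast_pow,
          hγp (i0 + i) (by omega), pow_add, pow_add]
        ring
      rw [e1] at h3
      have hC : (0 : ℝ) < ((4 * (1 + g) ^ 2 : ℕ) : ℝ) := by positivity
      unfold kapM at h3
      rw [one_div, inv_mul_eq_div, lt_div_iff₀ hC] at h3
      rw [hgn]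
      have h5 : nn ((x : ZMod m) * ((g : ℤ) : ZMod m) ^ i0 * ((g : ℤ) : ZMod m) ^ i +
            (y : ZMod m) * ((g : ℤ) : ZMod m) ^ T * γ ^ i0 * γ ^ i) * (4 * (1 + g) ^ 2) < m := by
        exact_mod_cast h3
      rw [mul_comm]
      exact h5.le)
  have hγu : IsUnit γ := IsUnit.of_mul_eq_one _ hγ
  constructor
  · have h1 := ((hu.pow i0).mul_left_eq_zero).1 hmain.1
    exact (ZMod.intCast_zmod_eq_zero_iff_dvd _ _).1 h1
  · have h1 := ((hγu.pow i0).mul_left_eq_zero).1 hmain.2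
    have h2 := ((hu.pow T).mul_left_eq_zero).1 h1
    exact (ZMod.intCast_zmod_eq_zero_iff_dvd _ _).1 h2

/-- the digits of an `L`-digit number -/
noncomputable def Dm (g L : ℕ) : Fin L → Finset ℤ := fun i => if (i : ℕ) + 1 = L then Icc 1 ((g : ℤ) - 1) else
  Icc 0 ((g : ℤ) - 1)

/-- the number and its mirror image -/
def vM (g L : ℕ) : Fin L → Fin 2 → ℤ := fun i => ![(g : ℤ) ^ (i : ℕ), (g : ℤ) ^ (L - 1 - (i : ℕ))]

theorem manyGood_mirror {g : ℕ} (hg : 2 ≤ g) (L : ℕ) :
    ManyGood (WdM g) 3 g (kapM g) L (Dm g L) (vM g L) := by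
  classical
  intro m K hm hmK hmW b hb
  have hmz : NeZero m := ⟨hm.ne'⟩
  set good : Fin L → Prop := fun i => (i : ℕ) + 1 ≠ L ∧
    kapM g * m ≤ nn (((1 - 0) * ∑ l, vM g L i l * b l : ℤ) : ZMod m) with hgood
  refine ⟨univ.filter good, ?_, ?_⟩
  · apply windows (by omega) good
    intro q hq
    by_contra hcon
    push Not at hcon
    apply hb
    have hqq : (q + 1) * (K + 3) = q * (K + 3) + (K + 3) := by ring
    have h1 := mirror_window hg hmW K hmK (L - 1) (q * (K + 3)) (by omega) (b 0) (b 1)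
      (by
        intro i hi1 hi2 hk
        have hlt : i < L := by omega
        apply hcon ⟨i, hlt⟩ hi1 (by show i < (q + 1) * (K + 3); omega)
        refine ⟨by show i + 1 ≠ L; omega, ?_⟩
        have e1 : ((1 - 0) * ∑ l, vM g L ⟨i, hlt⟩ l * b l : ℤ) =
            b 0 * (g : ℤ) ^ i + b 1 * (g : ℤ) ^ (L - 1 - i) := by
          rw [Fin.sum_univ_two]
          simp only [vM, Matrix.cons_val_zero, Matrix.cons_val_one]
          ring
        rw [e1]
        exact hk)
    intro l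
    fin_cases l
    · exact h1.1
    · exact h1.2
  · intro i hi
    have hi' := (mem_filter.1 hi).2
    have hD : Dm g L i = Icc 0 ((g : ℤ) - 1) := by
      unfold Dm
      rw [if_neg hi'.1]
    refine ⟨?_, 1, ?_, 0, ?_, by norm_num, hi'.2⟩
    · rw [hD, Int.card_Icc]
      omega
    · rw [hD, mem_Icc]
      omega
    · rw [hD, mem_Icc]
      omega

end Pool.Agent.Y353.FD
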