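import Pool.Agent.Y353.FD.Digits

/-!
Project FD (helper353): uniform decay of the Fourier coefficients of digital maps.
-/

set_option autoImplicit false

namespace Pool.Agent.Y353.FD

open Finset Filter

/-- For every `m < 2 ^ K` prime to `Wd` and every frequency `b / m` which is not integral at least
`L / (K + A0)` digits have a large contribution. -/
def ManyGood {ι : Type} [Fintype ι] {k : ℕ} (Wd A0 B : ℕ) (κ : ℝ) (L : ℕ) (D : ι → Finset ℤ)
    (v : ι → Fin k → ℤ) : Prop :=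
  ∀ (m K : ℕ), 0 < m → m < 2 ^ K → m.Coprime Wd → ∀ b : Fin k → ℤ, (¬ ∀ l, (m : ℤ) ∣ b l) →
    ∃ J : Finset ι, L / (K + A0) ≤ J.card ∧ ∀ i ∈ J, (D i).card ≤ B ∧ ∃ d1 ∈ D i, ∃ d2 ∈ D i,
      d1 ≠ d2 ∧ κ * m ≤ nn (((d1 - d2) * ∑ l, v i l * b l : ℤ) : ZMod m)

/-- the constant -/
noncomputable def c0 (k B : ℕ) (κ : ℝ) : ℝ := κ / (2 * B * (k + 1))

/-- the modulus bound -/
noncomputable def NN (k B : ℕ) (κ : ℝ) (L : ℕ) : ℕ := ⌊Real.exp (c0 k B κ * √L)⌋₊

theorem c0_pos (k : ℕ) {B : ℕ} (hB : 0 < B) {κ : ℝ} (hκ : 0 < κ) : 0 < c0 k B κ := by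
  unfold c0
  have : (0 : ℝ) < B := by exact_mod_cast hB
  positivity

theorem tendsto_sqrt_nat : Tendsto (fun L : ℕ => √(L : ℝ)) atTop atTop :=
  Real.tendsto_sqrt_atTop.comp tendsto_natCast_atTop_atTop

theorem tendsto_NN (k : ℕ) {B : ℕ} (hB : 0 < B) {κ : ℝ} (hκ : 0 < κ) :
    Tendsto (NN k B κ) atTop atTop := by
  unfold NN
  apply tendsto_nat_floor_atTop.comp
  apply Real.tendsto_exp_atTop.comp
  exact tendsto_sqrt_nat.const_mul_atTop (c0_pos k hB hκ)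

theorem fd_digits (k A0 B : ℕ) (hB : 0 < B) (κ : ℝ) (hκ : 0 < κ) :
    ∀ᶠ L : ℕ in atTop, ∀ (Wd : ℕ) {ι : Type} [Fintype ι] [DecidableEq ι] (D : ι → Finset ℤ)
      (v : ι → Fin k → ℤ), ManyGood Wd A0 B κ L D v → ∀ m : ℕ, 0 < m → m ≤ NN k B κ L →
      m.Coprime Wd → ∀ b : Fin k → ℤ, (¬ ∀ l, (m : ℤ) ∣ b l) →
      ‖∑ ω ∈ Fintype.piFinset D, wv (lin v ω) b m‖ ≤
        ((NN k B κ L : ℕ) : ℝ) ^ (-((k : ℝ) + 1)) * (Fintype.piFinset D).card := by
  have hc0 := c0_pos k hB hκ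
  set c := c0 k B κ with hc
  have hBr : (0 : ℝ) < B := by exact_mod_cast hB
  have t1 : ∀ᶠ L : ℕ in atTop, (2 + A0 : ℝ) ≤ c * √L :=
    (tendsto_sqrt_nat.const_mul_atTop hc0).eventually_ge_atTop _
  have t2 : ∀ᶠ L : ℕ in atTop, 12 * c ≤ √L := tendsto_sqrt_nat.eventually_ge_atTop _
  have t3 : ∀ᶠ L : ℕ in atTop, 1 ≤ NN k B κ L := (tendsto_NN k hB hκ).eventually_ge_atTop 1
  filter_upwards [t1, t2, t3, eventually_gt_atTop 0] with L h1 h2 h3 hL0 Wd ι _ _ D v hgood m hm hmN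
    hmW b hb
  set N := NN k B κ L with hN
  set x := √(L : ℝ) with hx
  have hLr : (0 : ℝ) < L := by exact_mod_cast hL0
  have hx0 : 0 < x := Real.sqrt_pos.2 hLr
  have hxL : x * x = L := Real.mul_self_sqrt hLr.le
  have hN0 : (0 : ℝ) < N := by exact_mod_cast h3
  have hNle : (N : ℝ) ≤ Real.exp (c * x) := Nat.floor_le (Real.exp_pos _).le
  have hlogN : Real.log N ≤ c * x := by
    have := Real.log_le_log hN0 hNle
    rwa [Real.log_exp] at this
  set K := Nat.log 2 N + 1 with hK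
  have hmK : m < 2 ^ K := lt_of_le_of_lt hmN (Nat.lt_pow_succ_log_self (by norm_num) N)
  have hne : NeZero m := ⟨hm.ne'⟩
  obtain ⟨J, hJ, hJg⟩ := hgood m K hm hmK hmW b hb
  have hdec := decay D v b m J hκ.le (fun i hi => (hJg i hi).1) (fun i hi => (hJg i hi).2)
  refine hdec.trans ?_
  rw [mul_comm]
  apply mul_le_mul_of_nonneg_right _ (Nat.cast_nonneg _)
  -- size of the windows
  have hw1 : ((K + A0 : ℕ) : ℝ) ≤ 3 * c * x := by
    have e1 : (Nat.log 2 N : ℝ) ≤ 2 * (c * x) := by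
      have e2 : (2 : ℝ) ^ (Nat.log 2 N) ≤ N := by
        exact_mod_cast Nat.pow_log_le_self 2 (by omega : N ≠ 0)
      have e3 := Real.log_le_log (by positivity) e2
      rw [Real.log_pow] at e3
      have e4 := Real.log_two_gt_d9
      have e5 : (0 : ℝ) ≤ Nat.log 2 N := Nat.cast_nonneg _
      nlinarith
    rw [hK]
    push_cast
    linarith
  have hw0 : (0 : ℝ) < ((K + A0 : ℕ) : ℝ) := by
    have : 0 < K + A0 := by omega
    exact_mod_cast this
  have hJc : x / (4 * c) ≤ (J.card : ℝ) := by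
    have e1 : (L : ℝ) / ((K + A0 : ℕ) : ℝ) < ((L / (K + A0) : ℕ) : ℝ) + 1 := by
      rw [div_lt_iff₀ hw0]
      have := Nat.lt_div_mul_add (a := L) (b := K + A0) (by omega)
      have e3 : (L : ℝ) < ((L / (K + A0) * (K + A0) + (K + A0) : ℕ) : ℝ) := by exact_mod_cast this
      push_cast at e3 ⊢
      linarith
    have e2 : x / (3 * c) ≤ (L : ℝ) / ((K + A0 : ℕ) : ℝ) := by
      rw [div_le_div_iff₀ (by positivity) hw0]
      calc x * ((K + A0 : ℕ) : ℝ) ≤ x * (3 * c * x) := by gcongr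
        _ = L * (3 * c) := by rw [← hxL]; ring
    have e3 : x / (3 * c) = x / (4 * c) + x / (12 * c) := by
      field_simp
      ring
    have e4 : 1 ≤ x / (12 * c) := by
      rw [le_div_iff₀ (by positivity)]
      linarith
    have e5 : ((L / (K + A0) : ℕ) : ℝ) ≤ J.card := by exact_mod_cast hJ
    linarith
  -- comparison
  rw [Real.rpow_def_of_pos hN0]
  apply Real.exp_le_exp.2
  have hk0 : (0 : ℝ) < (k : ℝ) + 1 := by positivity
  have f1 : (k + 1 : ℝ) * Real.log N ≤ 4 * κ ^ 2 / B * J.card := by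
    have g1 : 4 * κ ^ 2 / B * (x / (4 * c)) ≤ 4 * κ ^ 2 / B * J.card := by gcongr
    have g2 : 4 * κ ^ 2 / B * (x / (4 * c)) = 2 * κ * (k + 1) * x := by
      rw [hc]
      unfold c0
      field_simp
    have g3 : (k + 1 : ℝ) * Real.log N ≤ (k + 1) * (c * x) := by gcongr
    have g4 : c ≤ 2 * κ := by
      rw [hc]
      unfold c0
      rw [div_le_iff₀ (by positivity)]
      have h5 : (1 : ℝ) ≤ B := by exact_mod_cast hB
      have h6 : (1 : ℝ) ≤ (k : ℝ) + 1 := by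
        have := Nat.cast_nonneg (α := ℝ) k
        linarith
      have h7 : (1 : ℝ) ≤ B * ((k : ℝ) + 1) := one_le_mul_of_one_le_of_one_le h5 h6
      nlinarith
    have g5 : (k + 1 : ℝ) * (c * x) ≤ 2 * κ * (k + 1) * x := by
      have : (k + 1 : ℝ) * (c * x) ≤ (k + 1) * (2 * κ * x) := by gcongr
      linarith
    linarith
  linarith

end Pool.Agent.Y353.FD
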