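import Pool.Agent.TH194.BL.LowG
import Pool.Agent.TH194.BL.Lsk

/-!
Project FD (helper353): the arithmetic large sieve in dimension `k` for the image of an arbitrary
finite set under a map with small Fourier coefficients at the rational points with small
denominators composed of the sieving primes.
-/

set_option autoImplicit false

namespace Pool.Agent.Y353.FD

open Finset
open Pool.Agent.Helper112 (ee ls_ee_zero ls_ee_add ls_ee_int ls_conj_ee ls_norm_ee)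

/-- `e(⟨A, b⟩ / m)` -/
noncomputable def wv {k : ℕ} (A b : Fin k → ℤ) (m : ℕ) : ℂ :=
  ee (∑ i, (A i : ℝ) * (b i : ℝ) / (m : ℝ))

theorem norm_wv {k : ℕ} (A b : Fin k → ℤ) (m : ℕ) : ‖wv A b m‖ = 1 := ls_norm_ee _

/-- duality -/
theorem dual {Ω I : Type*} [DecidableEq I] (S Z : Finset Ω) (hZ : Z ⊆ S) (R : Finset I)
    (V : I → Ω → ℂ) (s d : ℝ) (hd : 0 ≤ d) (hs : 0 ≤ s)
    (hdiag : ∀ x ∈ R, ‖∑ ω ∈ S, V x ω * (starRingEnd ℂ) (V x ω)‖ ≤ s)
    (hoff : ∀ x ∈ R, ∀ y ∈ R, x ≠ y → ‖∑ ω ∈ S, V x ω * (starRingEnd ℂ) (V y ω)‖ ≤ d) :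
    ∑ x ∈ R, ‖∑ ω ∈ Z, V x ω‖ ^ 2 ≤ Z.card * (s + d * R.card) := by
  classical
  set T : I → ℂ := fun x => ∑ ω ∈ Z, V x ω with hT
  set U : Ω → ℂ := fun ω => ∑ x ∈ R, (starRingEnd ℂ) (T x) * V x ω with hU
  set E : ℝ := ∑ x ∈ R, ‖T x‖ ^ 2 with hE
  have hE0 : 0 ≤ E := sum_nonneg fun x _ => by positivity
  have h1 : (E : ℂ) = ∑ ω ∈ Z, U ω := by
    rw [hE, hU, Complex.ofReal_sum, sum_comm]
    refine sum_congr rfl fun x _ => ?_
    rw [← mul_sum]
    change _ = (starRingEnd ℂ) (T x) * T x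
    rw [Complex.ofReal_pow, ← Complex.conj_mul' (T x)]
  have h2 : E ^ 2 ≤ Z.card * ∑ ω ∈ S, ‖U ω‖ ^ 2 := by
    have e1 : E = ‖∑ ω ∈ Z, U ω‖ := by
      rw [← h1, Complex.norm_real, Real.norm_of_nonneg hE0]
    calc E ^ 2 = ‖∑ ω ∈ Z, U ω‖ ^ 2 := by rw [← e1]
      _ ≤ (∑ ω ∈ Z, ‖U ω‖) ^ 2 := pow_le_pow_left₀ (norm_nonneg _) (norm_sum_le _ _) 2
      _ ≤ Z.card * ∑ ω ∈ Z, ‖U ω‖ ^ 2 := sq_sum_le_card_mul_sum_sq
      _ ≤ Z.card * ∑ ω ∈ S, ‖U ω‖ ^ 2 := by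
          apply mul_le_mul_of_nonneg_left _ (Nat.cast_nonneg _)
          exact sum_le_sum_of_subset_of_nonneg hZ (fun _ _ _ => by positivity)
  have h3 : ∑ ω ∈ S, ‖U ω‖ ^ 2 ≤ (s + d * R.card) * E := by
    have e1 : ((∑ ω ∈ S, ‖U ω‖ ^ 2 : ℝ) : ℂ) = ∑ x ∈ R, ∑ y ∈ R,
        (starRingEnd ℂ) (T x) * T y * ∑ ω ∈ S, V x ω * (starRingEnd ℂ) (V y ω) := by
      rw [Complex.ofReal_sum]
      have e2 : ∀ ω, ((‖U ω‖ ^ 2 : ℝ) : ℂ) = ∑ x ∈ R, ∑ y ∈ R,
          (starRingEnd ℂ) (T x) * T y * (V x ω * (starRingEnd ℂ) (V y ω)) := by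
        intro ω
        rw [Complex.ofReal_pow, ← Complex.mul_conj', hU]
        simp only
        rw [map_sum, sum_mul_sum]
        refine sum_congr rfl fun x _ => sum_congr rfl fun y _ => ?_
        rw [map_mul, Complex.conj_conj]
        ring
      rw [sum_congr rfl fun ω _ => e2 ω, sum_comm]
      refine sum_congr rfl fun x _ => ?_
      rw [sum_comm]
      refine sum_congr rfl fun y _ => ?_
      exact (Finset.mul_sum _ _ _).symm
    have e3 : ∑ ω ∈ S, ‖U ω‖ ^ 2 = ‖((∑ ω ∈ S, ‖U ω‖ ^ 2 : ℝ) : ℂ)‖ := by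
      rw [Complex.norm_real, Real.norm_of_nonneg (sum_nonneg fun _ _ => by positivity)]
    rw [e3, e1]
    calc ‖∑ x ∈ R, ∑ y ∈ R, (starRingEnd ℂ) (T x) * T y *
          ∑ ω ∈ S, V x ω * (starRingEnd ℂ) (V y ω)‖
        ≤ ∑ x ∈ R, ∑ y ∈ R, ‖(starRingEnd ℂ) (T x) * T y *
          ∑ ω ∈ S, V x ω * (starRingEnd ℂ) (V y ω)‖ :=
          (norm_sum_le _ _).trans (sum_le_sum fun x _ => norm_sum_le _ _)
      _ ≤ ∑ x ∈ R, ∑ y ∈ R, (‖T x‖ * ‖T y‖ * d + if x = y then ‖T x‖ ^ 2 * s else 0) := by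
          refine sum_le_sum fun x hx => sum_le_sum fun y hy => ?_
          rw [norm_mul, norm_mul, RCLike.norm_conj]
          by_cases hxy : x = y
          · subst hxy
            rw [if_pos rfl]
            have := hdiag x hx
            have h5 : ‖T x‖ * ‖T x‖ * ‖∑ ω ∈ S, V x ω * (starRingEnd ℂ) (V x ω)‖ ≤
                ‖T x‖ * ‖T x‖ * s := by gcongr
            have h6 : 0 ≤ ‖T x‖ * ‖T x‖ * d := by positivity
            nlinarith
          · rw [if_neg hxy, add_zero]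
            have := hoff x hx y hy hxy
            gcongr
      _ = (∑ x ∈ R, ‖T x‖) ^ 2 * d + E * s := by
          simp only [sum_add_distrib]
          congr 1
          · rw [sq, sum_mul_sum, sum_mul]
            refine sum_congr rfl fun x _ => ?_
            rw [sum_mul]
          · rw [hE, sum_mul]
            refine sum_congr rfl fun x hx => ?_
            rw [sum_ite_eq]
            simp [hx]
      _ ≤ (R.card * E) * d + E * s := by
          have : (∑ x ∈ R, ‖T x‖) ^ 2 ≤ R.card * E := sq_sum_le_card_mul_sum_sq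
          gcongr
      _ = (s + d * R.card) * E := by ring
  have h4 : E ^ 2 ≤ (Z.card * (s + d * R.card)) * E := by
    calc E ^ 2 ≤ Z.card * ∑ ω ∈ S, ‖U ω‖ ^ 2 := h2
      _ ≤ Z.card * ((s + d * R.card) * E) := by gcongr
      _ = _ := by ring
  rcases hE0.eq_or_lt with h0 | h0
  · rw [← h0]
    positivity
  · rw [sq] at h4
    exact le_of_mul_le_mul_right h4 h0

theorem wv_mul_conj {k : ℕ} (A : Fin k → ℤ) (b b' : Fin k → ℤ) {m m' : ℕ} (hm : 0 < m)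
    (hm' : 0 < m') : wv A b m * (starRingEnd ℂ) (wv A b' m') =
      wv A (fun i => b i * m' - b' i * m) (m * m') := by
  unfold wv
  rw [ls_conj_ee, ← ls_ee_add, ← sub_eq_add_neg, ← sum_sub_distrib]
  congr 1
  refine sum_congr rfl fun i _ => ?_
  have h1 : (m : ℝ) ≠ 0 := by positivity
  have h2 : (m' : ℝ) ≠ 0 := by positivity
  push_cast
  field_simp

open Pool.Agent.TH194.BL.LSK in
/-- two different indices have frequencies that differ modulo one -/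
theorem freq_ne {k j : ℕ} {P : Finset ℕ} (hP : ∀ t ∈ P, t.Prime)
    {x y : (_ : Finset ℕ) × (Fin k → ℕ)} (hx : x ∈ (P.powersetCard j).sigma (fun D => Bs k D))
    (hy : y ∈ (P.powersetCard j).sigma (fun D => Bs k D)) (hxy : x ≠ y) :
    ¬ ∀ i, (((∏ t ∈ x.1, t) * (∏ t ∈ y.1, t) : ℕ) : ℤ) ∣
      (x.2 i : ℤ) * ((∏ t ∈ y.1, t : ℕ) : ℤ) - (y.2 i : ℤ) * ((∏ t ∈ x.1, t : ℕ) : ℤ) := by
  obtain ⟨D, b⟩ := x
  obtain ⟨D', b'⟩ := y
  rw [mem_sigma, mem_powersetCard, mem_Bs] at hx hy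
  simp only at hx hy
  intro h
  apply hxy
  simp only at h
  have hDp : ∀ t ∈ D, t.Prime := fun t ht => hP t (hx.1.1 ht)
  have hDp' : ∀ t ∈ D', t.Prime := fun t ht => hP t (hy.1.1 ht)
  set m := ∏ t ∈ D, t with hm
  set m' := ∏ t ∈ D', t with hm'
  have hm0 : 0 < m := prod_pos fun t ht => (hDp t ht).pos
  have hm0' : 0 < m' := prod_pos fun t ht => (hDp' t ht).pos
  have key : ∀ i, b i * m' = b' i * m := by
    intro i
    have h1 : b i * m' < m * m' := Nat.mul_lt_mul_of_pos_right (hx.2.1 i) hm0'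
    have h2 : b' i * m < m * m' := by
      rw [mul_comm m m']
      exact Nat.mul_lt_mul_of_pos_right (hy.2.1 i) hm0
    have h3 := h i
    have h4 : ((b i * m' : ℕ) : ℤ) - ((b' i * m : ℕ) : ℤ) = 0 := by
      apply Int.eq_zero_of_abs_lt_dvd (m := ((m * m' : ℕ) : ℤ))
      · push_cast at h3 ⊢
        exact h3
      · rw [abs_lt]
        constructor <;> omega
    omega
  have hsub : ∀ (D D' : Finset ℕ) (b b' : Fin k → ℕ), (∀ t ∈ D, t.Prime) → (∀ t ∈ D', t.Prime) →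
      (∀ i, b i * (∏ t ∈ D', t) = b' i * ∏ t ∈ D, t) → (∀ t ∈ D, ∃ i, ¬ t ∣ b i) → D ⊆ D' := by
    intro D D' b b' hD hD' hk hb t ht
    obtain ⟨i, hi⟩ := hb t ht
    have h1 : t ∣ b i * ∏ t ∈ D', t := by
      rw [hk i]
      exact dvd_mul_of_dvd_right (dvd_prod_of_mem _ ht) _
    rcases (hD t ht).dvd_mul.1 h1 with h2 | h2
    · exact absurd h2 hi
    · obtain ⟨r, hr, h3⟩ := ((hD t ht).prime.dvd_finsetProd_iff _).1 h2
      rwa [(Nat.prime_dvd_prime_iff_eq (hD t ht) (hD' r hr)).1 h3]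
  have e1 : D = D' := by
    apply Subset.antisymm
    · exact hsub D D' b b' hDp hDp' key hx.2.2
    · exact hsub D' D b' b hDp' hDp (fun i => (key i).symm) hy.2.2
  subst e1
  have e2 : b = b' := by
    funext i
    exact Nat.eq_of_mul_eq_mul_right hm0 (key i)
  rw [e2]

open Pool.Agent.TH194.BL.LSK in
/-- **The arithmetic large sieve for Fourier decaying maps.** -/
theorem lsM {η : ℝ} (hη0 : 0 < η) {Ω : Type*} (k Q j : ℕ) (P : Finset ℕ) (S Z : Finset Ω)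
    (hZS : Z ⊆ S) (F : Ω → Fin k → ℤ) (Om : (t : ℕ) → Finset (Fin k → ZMod t))
    (hP : ∀ t ∈ P, t.Prime) (hOm : ∀ t ∈ P, ((Om t).card : ℝ) ≤ (1 - η) * (t : ℝ) ^ k)
    (hZO : ∀ z ∈ Z, ∀ t ∈ P, (fun i => ((F z i : ℤ) : ZMod t)) ∈ Om t)
    (hD : ∀ D ∈ P.powersetCard j, ∏ t ∈ D, t ≤ Q) {δ : ℝ} (hδ : 0 ≤ δ)
    (hFD : ∀ m : ℕ, 0 < m → m ≤ Q ^ 2 → (∀ p : ℕ, p.Prime → p ∣ m → p ∈ P) →
      ∀ b : Fin k → ℤ, (¬ ∀ i, (m : ℤ) ∣ b i) → ‖∑ ω ∈ S, wv (F ω) b m‖ ≤ δ * S.card) :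
    (Z.card : ℝ) * ((P.card.choose j : ℝ) * η ^ j) ≤
      S.card * (1 + δ * ((P.card.choose j : ℝ) * (Q : ℝ) ^ k)) := by
  classical
  set M0 : ℕ := ∏ t ∈ P, t with hM0
  have hM0p : 0 < M0 := prod_pos fun t ht => (hP t ht).pos
  set F' : Ω → Fin k → ℕ := fun ω i => (F ω i % (M0 : ℤ)).toNat with hF'
  have hF'z : ∀ ω i, ((F' ω i : ℕ) : ℤ) = F ω i % (M0 : ℤ) := by
    intro ω i
    simp only [hF']
    exact Int.toNat_of_nonneg (Int.emod_nonneg _ (by positivity))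
  have hcast : ∀ ω i, ∀ t ∈ P, ((F' ω i : ℕ) : ZMod t) = ((F ω i : ℤ) : ZMod t) := by
    intro ω i t ht
    have h1 : ((F' ω i : ℕ) : ZMod t) = (((F' ω i : ℕ) : ℤ) : ZMod t) := by push_cast; rfl
    rw [h1, hF'z, ZMod.intCast_eq_intCast_iff_dvd_sub]
    have h2 : (t : ℤ) ∣ (M0 : ℤ) := by exact_mod_cast dvd_prod_of_mem _ ht
    refine h2.trans ?_
    rw [Int.emod_def]
    exact ⟨F ω i / M0, by ring⟩
  set R := (P.powersetCard j).sigma (fun D => Bs k D) with hR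
  set V : ((_ : Finset ℕ) × (Fin k → ℕ)) → Ω → ℂ :=
    fun x ω => wv (F ω) (fun i => (x.2 i : ℤ)) (∏ t ∈ x.1, t) with hV
  have hVF : ∀ D ∈ P.powersetCard j, ∀ (b : Fin k → ℕ) (ω : Ω), V ⟨D, b⟩ ω =
      ee (∑ i, (F' ω i : ℝ) * (b i : ℝ) / ((∏ t ∈ D, t : ℕ) : ℝ)) := by
    intro D hDm b ω
    rw [mem_powersetCard] at hDm
    have hm : 0 < ∏ t ∈ D, t := prod_pos fun t ht => (hP t (hDm.1 ht)).pos
    have hdiv : (∏ t ∈ D, t) ∣ M0 := prod_dvd_prod_of_subset _ _ _ hDm.1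
    obtain ⟨r, hr⟩ := hdiv
    simp only [hV]
    unfold wv
    have e1 : ∑ i, ((F ω i : ℤ) : ℝ) * (((b i : ℕ) : ℤ) : ℝ) / ((∏ t ∈ D, t : ℕ) : ℝ) =
        ∑ i, (F' ω i : ℝ) * (b i : ℝ) / ((∏ t ∈ D, t : ℕ) : ℝ) +
          ((∑ i, r * (F ω i / (M0 : ℤ)) * b i : ℤ) : ℝ) := by
      rw [Int.cast_sum, ← sum_add_distrib]
      refine sum_congr rfl fun i _ => ?_
      have h1 : (F ω i : ℝ) = (F' ω i : ℝ) + (((∏ t ∈ D, t : ℕ) : ℝ) * r) *
          ((F ω i / (M0 : ℤ) : ℤ) : ℝ) := by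
        have h2 := Int.emod_add_mul_ediv (F ω i) (M0 : ℤ)
        rw [← hF'z] at h2
        have h3 : (M0 : ℤ) = ((∏ t ∈ D, t : ℕ) : ℤ) * r := by exact_mod_cast hr
        have h4 : F ω i = (F' ω i : ℤ) + ((∏ t ∈ D, t : ℕ) : ℤ) * r * (F ω i / (M0 : ℤ)) := by
          rw [← h3]
          exact h2.symm
        exact_mod_cast h4
      have hmr : ((∏ t ∈ D, t : ℕ) : ℝ) ≠ 0 := by positivity
      rw [h1]
      rw [Int.cast_mul, Int.cast_mul, Int.cast_natCast, Int.cast_natCast]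
      field_simp
    rw [e1, ls_ee_add, ls_ee_int, mul_one]
  -- the upper bound
  have hup : ∑ x ∈ R, ‖∑ ω ∈ Z, V x ω‖ ^ 2 ≤ Z.card * ((S.card : ℝ) + δ * S.card * R.card) := by
    apply dual S Z hZS R V _ _ (by positivity) (by positivity)
    · intro x _
      have e1 : ∀ ω, V x ω * (starRingEnd ℂ) (V x ω) = 1 := by
        intro ω
        rw [Complex.mul_conj']
        simp only [hV]
        rw [norm_wv]
        norm_num
      rw [sum_congr rfl fun ω _ => e1 ω]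
      simp
    · intro x hx y hy hxy
      have hx' := hx
      have hy' := hy
      rw [hR, mem_sigma, mem_powersetCard, mem_Bs] at hx' hy'
      have hDp : ∀ t ∈ x.1, t.Prime := fun t ht => hP t (hx'.1.1 ht)
      have hDp' : ∀ t ∈ y.1, t.Prime := fun t ht => hP t (hy'.1.1 ht)
      have hm0 : 0 < ∏ t ∈ x.1, t := prod_pos fun t ht => (hDp t ht).pos
      have hm0' : 0 < ∏ t ∈ y.1, t := prod_pos fun t ht => (hDp' t ht).pos
      have e1 : ∀ ω, V x ω * (starRingEnd ℂ) (V y ω) = wv (F ω)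
          (fun i => (x.2 i : ℤ) * ((∏ t ∈ y.1, t : ℕ) : ℤ) - (y.2 i : ℤ) * ((∏ t ∈ x.1, t : ℕ) : ℤ))
          ((∏ t ∈ x.1, t) * (∏ t ∈ y.1, t)) := by
        intro ω
        simp only [hV]
        exact wv_mul_conj _ _ _ hm0 hm0'
      rw [sum_congr rfl fun ω _ => e1 ω]
      apply hFD _ (Nat.mul_pos hm0 hm0')
      · rw [sq]
        exact Nat.mul_le_mul (hD _ (mem_powersetCard.2 hx'.1)) (hD _ (mem_powersetCard.2 hy'.1))
      · intro p hp hpd
        rcases (hp.dvd_mul).1 hpd with h | h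
        · obtain ⟨r, hr, h3⟩ := (hp.prime.dvd_finsetProd_iff _).1 h
          rw [(Nat.prime_dvd_prime_iff_eq hp (hDp r hr)).1 h3]
          exact hx'.1.1 hr
        · obtain ⟨r, hr, h3⟩ := (hp.prime.dvd_finsetProd_iff _).1 h
          rw [(Nat.prime_dvd_prime_iff_eq hp (hDp' r hr)).1 h3]
          exact hy'.1.1 hr
      · exact freq_ne hP hx hy hxy
  -- the lower bound
  have hlow : ∀ D ∈ P.powersetCard j, η ^ j * (Z.card : ℝ) ^ 2 ≤
      ∑ b ∈ Bs k D, ‖∑ ω ∈ Z, V ⟨D, b⟩ ω‖ ^ 2 := by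
    intro D hDm
    obtain ⟨hDP, hDc⟩ := mem_powersetCard.1 hDm
    set cc : (Fin k → ℕ) → ℂ := fun z => ((Z.filter (fun ω => F' ω = z)).card : ℂ) with hcc
    have hcomp : ∀ g : (Fin k → ℕ) → ℂ, ∑ z ∈ Z.image F', cc z * g z = ∑ ω ∈ Z, g (F' ω) := by
      intro g
      rw [sum_comp g F']
      refine sum_congr rfl fun z _ => ?_
      rw [nsmul_eq_mul]
    have h3 := Pool.Agent.TH194.BL.G.low hη0 k D (Z.image F') Om
      (fun t ht => hP t (hDP ht)) (fun t ht => hOm t (hDP ht))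
      (by
        intro z hz t ht
        obtain ⟨ω, hω, rfl⟩ := mem_image.1 hz
        have e1 : (fun i => ((F' ω i : ℕ) : ZMod t)) = (fun i => ((F ω i : ℤ) : ZMod t)) := by
          funext i
          exact hcast ω i t (hDP ht)
        rw [e1]
        exact hZO ω hω t (hDP ht)) cc
    rw [hDc] at h3
    have h4 : ∑ z ∈ Z.image F', cc z = (Z.card : ℂ) := by
      have := hcomp (fun _ => 1)
      simpa using this
    rw [h4] at h3
    have h5 : ‖(Z.card : ℂ)‖ = (Z.card : ℝ) := by simp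
    rw [h5] at h3
    refine h3.trans (le_of_eq ?_)
    refine sum_congr rfl fun b _ => ?_
    rw [hcomp (fun z => ee (∑ i, (z i : ℝ) * (b i : ℝ) / ((∏ t ∈ D, t : ℕ) : ℝ)))]
    congr 2
    refine sum_congr rfl fun ω _ => ?_
    rw [hVF D hDm b ω]
  have hsum : (P.card.choose j : ℝ) * (η ^ j * (Z.card : ℝ) ^ 2) ≤
      ∑ x ∈ R, ‖∑ ω ∈ Z, V x ω‖ ^ 2 := by
    rw [hR, sum_sigma]
    have h5 := sum_le_sum hlow
    rw [sum_const, card_powersetCard, nsmul_eq_mul] at h5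
    exact h5
  have hRc : (R.card : ℝ) ≤ (P.card.choose j : ℝ) * (Q : ℝ) ^ k := by
    have h1 : R.card ≤ P.card.choose j * Q ^ k := by
      rw [hR, card_sigma]
      calc ∑ D ∈ P.powersetCard j, (Bs k D).card ≤ ∑ _D ∈ P.powersetCard j, Q ^ k := by
            refine sum_le_sum fun D hDm => ?_
            calc (Bs k D).card ≤ (Fintype.piFinset (fun _ : Fin k => range (∏ t ∈ D, t))).card :=
                  card_filter_le _ _
              _ = (∏ t ∈ D, t) ^ k := by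
                  rw [Fintype.card_piFinset_const, card_range]
              _ ≤ Q ^ k := Nat.pow_le_pow_left (hD D hDm) k
        _ = _ := by rw [sum_const, card_powersetCard, smul_eq_mul]
    exact_mod_cast h1
  have hall : (P.card.choose j : ℝ) * (η ^ j * (Z.card : ℝ) ^ 2) ≤
      Z.card * (S.card * (1 + δ * ((P.card.choose j : ℝ) * (Q : ℝ) ^ k))) := by
    refine (hsum.trans hup).trans ?_
    apply mul_le_mul_of_nonneg_left _ (Nat.cast_nonneg _)
    have h1 : δ * S.card * R.card ≤ δ * S.card * ((P.card.choose j : ℝ) * (Q : ℝ) ^ k) := by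
      gcongr
    linarith
  rcases Nat.eq_zero_or_pos Z.card with h0 | h0
  · rw [h0]
    simp only [Nat.cast_zero, zero_mul]
    positivity
  · have hZ0 : (0 : ℝ) < Z.card := by exact_mod_cast h0
    have h9 : ((Z.card : ℝ) * ((P.card.choose j : ℝ) * η ^ j)) * (Z.card : ℝ) ≤
        (S.card * (1 + δ * ((P.card.choose j : ℝ) * (Q : ℝ) ^ k))) * (Z.card : ℝ) := by
      refine le_trans (le_of_eq ?_) (hall.trans (le_of_eq ?_)) <;> ring
    exact le_of_mul_le_mul_right h9 hZ0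

end Pool.Agent.Y353.FD
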