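import Pool.Agent.TH194.BL.FinW
import Pool.Agent.Y353.FD.Sieve

/-!
Project FD (helper353): covering by local sets, for Fourier decaying maps.
-/

set_option autoImplicit false

namespace Pool.Agent.Y353.FD

open Finset
open Pool.Agent.TH194.BL Pool.Agent.TH194.BL.W

/-- The exceptional tuples: a coordinate is zero, or some combination of `M` elements of the
semigroup generated by the `A l`, with integral coefficients of absolute value at most `H` and
nonzero sum, vanishes. -/
def ExcZ (k M H : ℕ) : Set (Fin k → ℤ) :=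
  {A | (∃ l, A l = 0) ∨ ∃ (x : Fin M → Fin k → ℕ) (c : Fin M → ℤ), (∀ i, |c i| ≤ H) ∧
    ∑ i, c i ≠ 0 ∧ ∑ i, c i * ∏ l, A l ^ x i l = 0}

open Classical in
/-- **Covering.** -/
theorem card_excM {k M H lam Q j : ℕ} {B : ℝ} {Ω : Type*} (S : Finset Ω) (F : Ω → Fin k → ℤ)
    {P : Finset ℕ} (hM : 1 ≤ M) (hH : 1 ≤ H)
    (hP : ∀ t ∈ P, t.Prime) (hPl : ∀ t ∈ P, t - 1 ∣ lam)
    (hPk : ∀ t ∈ P, k * 2 ^ (M + 1) ≤ t)
    (hj : ∀ D ∈ P.powersetCard j, ∏ t ∈ D, t ≤ Q) (hlam : 0 < lam) (hB : 0 < B)
    (hBin : ∀ P' ⊆ P, ∀ s : ℤ, s ≠ 0 → |s| ≤ M * H →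
      P' = P.filter (fun t : ℕ => ¬ (t : ℤ) ∣ s) →
      B ≤ (P'.card.choose j : ℝ) * ((1 / 2) ^ (M + 1)) ^ j)
    {δ : ℝ} (hδ : 0 ≤ δ) (hδQ : δ * ((P.card.choose j : ℝ) * (Q : ℝ) ^ k) ≤ 1)
    (hFD : ∀ m : ℕ, 0 < m → m ≤ Q ^ 2 → (∀ p : ℕ, p.Prime → p ∣ m → p ∈ P) →
      ∀ b : Fin k → ℤ, (¬ ∀ i, (m : ℤ) ∣ b i) → ‖∑ ω ∈ S, wv (F ω) b m‖ ≤ δ * S.card) :
    ((S.filter (fun ω => F ω ∈ ExcZ k M H)).card : ℝ) ≤
      (lam : ℝ) ^ (k * M) * (2 * H + 1 : ℝ) ^ M * (2 * S.card / B) := by
  have : NeZero lam := ⟨hlam.ne'⟩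
  set I := (Fin M → Fin k → Fin lam) × (Fin M → Fin (2 * H + 1)) with hI
  let co : I → Fin M → ℤ := fun i m => (((i.2 m : Fin (2 * H + 1)) : ℕ) : ℤ) - H
  let good : I → Prop := fun i => ∑ m, co i m ≠ 0
  let PI : I → Finset ℕ := fun i => P.filter (fun t : ℕ => ¬ (t : ℤ) ∣ ∑ m, co i m)
  let ZI : I → Finset Ω := fun i => S.filter (fun ω => ∀ t ∈ PI i,
    (fun l => ((F ω l : ℤ) : ZMod t)) ∈ OmW k M (fun m l => ((i.1 m l : Fin lam) : ℕ)) (co i) t)
  have hsub : S.filter (fun ω => F ω ∈ ExcZ k M H) ⊆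
      ((univ : Finset I).filter good).biUnion ZI := by
    intro ω hω
    rw [mem_filter] at hω
    obtain ⟨hωS, hex⟩ := hω
    rw [mem_biUnion]
    rcases hex with ⟨l, hl⟩ | ⟨x, c, h1, h2, h3⟩
    · -- a zero coordinate
      have hlt : ∀ m : Fin M, (if (m : ℕ) = 0 then H + 1 else H) < 2 * H + 1 := by
        intro m
        split_ifs <;> omega
      set i : I := (fun _ _ => ⟨0, hlam⟩,
        fun m => ⟨if (m : ℕ) = 0 then H + 1 else H, hlt m⟩) with hi
      refine ⟨i, ?_, ?_⟩
      · rw [mem_filter]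
        refine ⟨mem_univ _, ?_⟩
        show ∑ m, co i m ≠ 0
        have e1 : ∀ m, co i m = if m = (⟨0, hM⟩ : Fin M) then (1 : ℤ) else 0 := by
          intro m
          simp only [co, hi]
          by_cases hm : (m : ℕ) = 0
          · rw [if_pos hm, if_pos (Fin.ext hm)]
            push_cast
            ring
          · rw [if_neg hm, if_neg (fun h => hm (by rw [h]))]
            ring
        rw [sum_congr rfl fun m _ => e1 m, sum_ite_eq']
        simp
      · rw [mem_filter]
        refine ⟨hωS, fun t ht => ?_⟩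
        have ht' : t ∈ P := (mem_filter.1 ht).1
        apply mem_OmW (hP t ht')
        left
        exact ⟨l, by rw [hl]; simp⟩
    · have hcb : ∀ m, (c m + H).toNat < 2 * H + 1 := by
        intro m
        have := abs_le.1 (h1 m)
        omega
      set i : I := (fun m l => ⟨x m l % lam, Nat.mod_lt _ hlam⟩,
        fun m => ⟨(c m + H).toNat, hcb m⟩) with hi
      have hco : co i = c := by
        funext m
        simp only [co, hi]
        have := abs_le.1 (h1 m)
        omega
      refine ⟨i, ?_, ?_⟩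
      · rw [mem_filter]
        refine ⟨mem_univ _, ?_⟩
        show ∑ m, co i m ≠ 0
        rw [hco]
        exact h2
      · rw [mem_filter]
        refine ⟨hωS, fun t ht => ?_⟩
        have ht' : t ∈ P := (mem_filter.1 ht).1
        have htp := hP t ht'
        have : Fact t.Prime := ⟨htp⟩
        apply mem_OmW htp
        by_cases h0 : ∃ l, ((F ω l : ℤ) : ZMod t) = 0
        · left; exact h0
        · right
          push Not at h0
          rw [hco]
          have e1 : ∀ m, ∏ l, ((F ω l : ℤ) : ZMod t) ^ (((i.1 m l : Fin lam) : ℕ)) =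
              ((∏ l, F ω l ^ x m l : ℤ) : ZMod t) := by
            intro m
            rw [Int.cast_prod]
            apply prod_congr rfl
            intro l _
            simp only [hi]
            rw [pow_mod_lam (hPl t ht') (h0 l)]
            push_cast
            rfl
          have e2 := congrArg (fun z : ℤ => (z : ZMod t)) h3
          simp only [Int.cast_sum, Int.cast_mul, Int.cast_zero] at e2
          rw [← e2]
          apply sum_congr rfl
          intro m _
          rw [e1]
  have hZ : ∀ i ∈ (univ : Finset I).filter good, ((ZI i).card : ℝ) ≤ 2 * S.card / B := by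
    intro i hi
    rw [mem_filter] at hi
    have hg : ∑ m, co i m ≠ 0 := hi.2
    have hco : |∑ m, co i m| ≤ M * H := by
      calc |∑ m, co i m| ≤ ∑ m, |co i m| := abs_sum_le_sum_abs _ _
        _ ≤ ∑ m : Fin M, (H : ℤ) := by
            apply sum_le_sum
            intro m _
            simp only [co]
            have := (i.2 m).2
            rw [abs_le]
            constructor <;> omega
        _ = M * H := by rw [sum_const, card_univ, Fintype.card_fin, nsmul_eq_mul]
    have hPIsub : PI i ⊆ P := filter_subset _ _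
    have hb := hBin (PI i) hPIsub (∑ m, co i m) hg hco rfl
    have hl := lsM (η := (1 / 2) ^ (M + 1)) (by positivity) k Q j (PI i) S (ZI i)
      (filter_subset _ _) F
      (OmW k M (fun m l => ((i.1 m l : Fin lam) : ℕ)) (co i))
      (fun t ht => hP t (hPIsub ht))
      (by
        intro t ht
        exact card_OmW (hP t (hPIsub ht)) (hPk t (hPIsub ht)) (mem_filter.1 ht).2)
      (by
        intro z hz t ht
        exact (mem_filter.1 hz).2 t ht)
      (by
        intro D hD
        exact hj D (powersetCard_mono hPIsub hD)) hδ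
      (fun m hm hmQ hmp b hb => hFD m hm hmQ (fun p hp hpm => hPIsub (hmp p hp hpm)) b hb)
    rw [le_div_iff₀ hB]
    have hch : (((PI i).card.choose j : ℕ) : ℝ) ≤ ((P.card.choose j : ℕ) : ℝ) := by
      exact_mod_cast Nat.choose_le_choose j (card_le_card hPIsub)
    calc ((ZI i).card : ℝ) * B ≤ ((ZI i).card : ℝ) *
          (((PI i).card.choose j : ℝ) * ((1 / 2) ^ (M + 1)) ^ j) := by gcongr
      _ ≤ S.card * (1 + δ * (((PI i).card.choose j : ℝ) * (Q : ℝ) ^ k)) := hl
      _ ≤ S.card * (1 + δ * ((P.card.choose j : ℝ) * (Q : ℝ) ^ k)) := by gcongr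
      _ ≤ S.card * (1 + 1) := by gcongr
      _ = 2 * S.card := by ring
  have hcard : (Fintype.card I : ℝ) = (lam : ℝ) ^ (k * M) * (2 * H + 1 : ℝ) ^ M := by
    simp only [hI, Fintype.card_prod, Fintype.card_fun, Fintype.card_fin]
    push_cast
    rw [pow_mul]
  calc ((S.filter (fun ω => F ω ∈ ExcZ k M H)).card : ℝ)
      ≤ ((((univ : Finset I).filter good).biUnion ZI).card : ℝ) := by
        exact_mod_cast card_le_card hsub
    _ ≤ ∑ i ∈ (univ : Finset I).filter good, ((ZI i).card : ℝ) := by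
        exact_mod_cast card_biUnion_le
    _ ≤ ∑ i ∈ (univ : Finset I).filter good, 2 * S.card / B := sum_le_sum hZ
    _ = (((univ : Finset I).filter good).card : ℝ) * (2 * S.card / B) := by
        rw [sum_const, nsmul_eq_mul]
    _ ≤ (Fintype.card I : ℝ) * (2 * S.card / B) := by
        apply mul_le_mul_of_nonneg_right _ (by positivity)
        exact_mod_cast card_le_univ _
    _ = _ := by rw [hcard]

end Pool.Agent.Y353.FD
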