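import Pool.Agent.TH194.BL.Main
import Pool.Agent.Y353.FD.Sieve

/-!
Project FD (helper353): perfect powers; covering by local sets, for Fourier decaying maps.
-/

set_option autoImplicit false

namespace Pool.Agent.Y353.FD

open Finset
open Pool.Agent.TH194.BL

/-- The exceptional tuples for the exponent `q`, for tuples of integers: the coordinates are positive
and form an exceptional tuple in the sense of `TH194.BL.Exc`. -/
def ExcN (k q : ℕ) (Y : ℝ) : Set (Fin k → ℤ) :=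
  {a | ∃ A : Fin k → ℕ, (∀ i, (A i : ℤ) = a i) ∧ A ∈ Exc k q Y}

open Classical in
/-- **Covering.** -/
theorem card_excQ {k q : ℕ} (hq : q.Prime) {lam Q j : ℕ} {B Y : ℝ} {Ω : Type*} (S : Finset Ω)
    (F : Ω → Fin k → ℤ) {P Sp : Finset ℕ}
    (hP : ∀ t ∈ P, t.Prime) (hPl : ∀ t ∈ P, t - 1 ∣ lam)
    (hPq : ∀ t ∈ P, q ∣ t - 1)
    (hPk : ∀ t ∈ P, 16 * (k + 4) ^ 2 ≤ t)
    (hj : ∀ D ∈ P.powersetCard j, ∏ t ∈ D, t ≤ Q) (hB : 0 < B)
    (hBin : B ≤ (P.card.choose j : ℝ) * ((1 / 2) ^ (1 + 1)) ^ j)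
    (hlam : 0 < lam) (hlam4 : ¬ 4 ∣ lam)
    (hSl : ∀ p : ℕ, p.Prime → p ∣ lam → p ∈ Sp) (hSY : ∀ p : ℕ, p.Prime → (p : ℝ) ≤ Y → p ∈ Sp)
    {δ : ℝ} (hδ : 0 ≤ δ) (hδQ : δ * ((P.card.choose j : ℝ) * (Q : ℝ) ^ k) ≤ 1)
    (hFD : ∀ m : ℕ, 0 < m → m ≤ Q ^ 2 → (∀ p : ℕ, p.Prime → p ∣ m → p ∈ P) →
      ∀ b : Fin k → ℤ, (¬ ∀ i, (m : ℤ) ∣ b i) → ‖∑ ω ∈ S, wv (F ω) b m‖ ≤ δ * S.card) :
    ((S.filter (fun ω => F ω ∈ ExcN k q Y)).card : ℝ) ≤
      2 * (lam : ℝ) ^ (2 * k) * (q : ℝ) ^ Sp.card * (2 * S.card / B) := by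
  have : NeZero lam := ⟨hlam.ne'⟩
  set I := (Fin k → Fin lam) × (Fin k → Fin lam) × (Sp → Fin q) × Bool with hI
  let sg : Bool → ℤ := fun b => if b then 1 else -1
  have hsg : ∀ b, sg b = 1 ∨ sg b = -1 := by
    intro b; cases b <;> simp [sg]
  let good : I → Prop := fun i => ∀ r : ℕ, r ∣ lam →
    (∀ l, (r : ℤ) ∣ (((i.2.1 l : Fin lam) : ℕ) : ℤ) - (((i.1 l : Fin lam) : ℕ) : ℤ)) → r ∣ 2
  let ZI : I → Finset Ω := fun i => S.filter (fun ω => ∀ t ∈ P,
    (fun l => ((F ω l : ℤ) : ZMod t)) ∈ Om k q (fun l => ((i.1 l : Fin lam) : ℕ))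
      (fun l => ((i.2.1 l : Fin lam) : ℕ)) (sg i.2.2.2) (cc i.2.2.1) t)
  have hsub : S.filter (fun ω => F ω ∈ ExcN k q Y) ⊆
      ((univ : Finset I).filter good).biUnion ZI := by
    intro ω hω
    rw [mem_filter] at hω
    obtain ⟨hωS, A, hAF, hA0, x, y, c, w, h1, h2, h3, h4, h5⟩ := hω
    obtain ⟨x', y', c', w', g1, g2, g3, g4, g5⟩ := desc k q lam (fun p => p ∈ Sp) hq hlam hlam4
      hSl A x y c w hA0 h1 h2 h3 (fun p hp hpc => hSY p hp (h4 p hp hpc)) h5
    obtain ⟨e, he⟩ := exists_cc g1 g2 g3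
    rw [mem_biUnion]
    have main : ∀ b : Bool, ((∏ i, A i ^ x' i : ℕ) : ℤ) + sg b * ((∏ i, A i ^ y' i : ℕ) : ℤ) =
        (c' : ℤ) * (w' : ℤ) ^ q → ∃ i ∈ (univ : Finset I).filter good, ω ∈ ZI i := by
      intro b hb
      refine ⟨(fun l => ⟨x' l % lam, Nat.mod_lt _ hlam⟩, fun l => ⟨y' l % lam, Nat.mod_lt _ hlam⟩,
        e, b), ?_, ?_⟩
      · rw [mem_filter]
        refine ⟨mem_univ _, ?_⟩
        intro r hr hdiv
        apply g4 r hr
        intro l
        have hl := hdiv l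
        simp only at hl
        have e1 : ((y' l % lam : ℕ) : ℤ) - ((x' l % lam : ℕ) : ℤ) =
            ((y' l : ℤ) - x' l) - (lam : ℤ) * ((y' l / lam : ℕ) - (x' l / lam : ℕ)) := by
          have h1 := Nat.mod_add_div (y' l) lam
          have h2 := Nat.mod_add_div (x' l) lam
          have h1' : ((y' l % lam : ℕ) : ℤ) + (lam : ℤ) * ((y' l / lam : ℕ) : ℤ) = (y' l : ℤ) := by
            exact_mod_cast h1
          have h2' : ((x' l % lam : ℕ) : ℤ) + (lam : ℤ) * ((x' l / lam : ℕ) : ℤ) = (x' l : ℤ) := by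
            exact_mod_cast h2
          linarith
        have hl' : (r : ℤ) ∣ ((y' l % lam : ℕ) : ℤ) - ((x' l % lam : ℕ) : ℤ) := hl
        rw [e1] at hl'
        have e2 : (r : ℤ) ∣ (lam : ℤ) * ((y' l / lam : ℕ) - (x' l / lam : ℕ)) :=
          Dvd.dvd.mul_right (Int.natCast_dvd_natCast.mpr hr) _
        exact (dvd_sub_left e2).mp hl'
      · rw [mem_filter]
        refine ⟨hωS, fun t ht => ?_⟩
        have htp := hP t ht
        have : Fact t.Prime := ⟨htp⟩
        have hcast : ∀ i, ((F ω i : ℤ) : ZMod t) = ((A i : ℕ) : ZMod t) := by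
          intro i
          rw [← hAF i, Int.cast_natCast]
        apply mem_Om htp
        by_cases h0 : ∃ i, ((F ω i : ℤ) : ZMod t) = 0
        · left; exact h0
        · right
          push Not at h0
          refine ⟨(w' : ZMod t), ?_⟩
          simp only [hcast] at h0 ⊢
          rw [he]
          have e1 : ∀ z : Fin k → ℕ, ∏ i, ((A i : ℕ) : ZMod t) ^ (z i % lam) =
              ((∏ i, A i ^ z i : ℕ) : ZMod t) := by
            intro z
            rw [Nat.cast_prod]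
            apply Finset.prod_congr rfl
            intro i _
            rw [pow_mod_lam (hPl t ht) (h0 i), Nat.cast_pow]
          rw [e1, e1]
          have hb' := congrArg (fun z : ℤ => (z : ZMod t)) hb
          simp only [Int.cast_add, Int.cast_mul, Int.cast_natCast, Int.cast_pow] at hb'
          exact hb'
    rcases g5 with g5 | g5
    · obtain ⟨i, hi, hAi⟩ := main true (by
        simp only [sg, if_true, one_mul]
        exact_mod_cast g5)
      exact ⟨i, hi, hAi⟩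
    · obtain ⟨i, hi, hAi⟩ := main false (by
        have : ((∏ i, A i ^ x' i : ℕ) : ℤ) = ((∏ i, A i ^ y' i : ℕ) : ℤ) + (c' : ℤ) * (w' : ℤ) ^ q := by
          exact_mod_cast g5
        rw [this]
        simp [sg])
      exact ⟨i, hi, hAi⟩
  have hZ : ∀ i ∈ (univ : Finset I).filter good, ((ZI i).card : ℝ) ≤ 2 * S.card / B := by
    intro i hi
    rw [mem_filter] at hi
    have hl := lsM (η := (1 / 2) ^ (1 + 1)) (by positivity) k Q j P S (ZI i)
      (filter_subset _ _) F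
      (Om k q (fun l => ((i.1 l : Fin lam) : ℕ)) (fun l => ((i.2.1 l : Fin lam) : ℕ))
        (sg i.2.2.2) (cc i.2.2.1)) hP
      (by
        intro t ht
        have := card_Om loc hq (hP t ht) (hPq t ht) (hPk t ht) (hsg i.2.2.2)
          (x := fun l => ((i.1 l : Fin lam) : ℕ)) (y := fun l => ((i.2.1 l : Fin lam) : ℕ))
          (c := cc i.2.2.1) (fun r hr1 => hi.2 r (hr1.trans (hPl t ht)))
        refine this.trans (le_of_eq ?_)
        norm_num)
      (by
        intro z hz t ht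
        exact (mem_filter.1 hz).2 t ht)
      hj hδ hFD
    rw [le_div_iff₀ hB]
    calc ((ZI i).card : ℝ) * B ≤ ((ZI i).card : ℝ) *
          ((P.card.choose j : ℝ) * ((1 / 2) ^ (1 + 1)) ^ j) := by gcongr
      _ ≤ S.card * (1 + δ * ((P.card.choose j : ℝ) * (Q : ℝ) ^ k)) := hl
      _ ≤ S.card * (1 + 1) := by gcongr
      _ = 2 * S.card := by ring
  have hcard : (Fintype.card I : ℝ) = 2 * (lam : ℝ) ^ (2 * k) * (q : ℝ) ^ Sp.card := by
    simp only [hI, Fintype.card_prod, Fintype.card_fun, Fintype.card_fin, Fintype.card_coe,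
      Fintype.card_bool]
    push_cast
    ring
  calc ((S.filter (fun ω => F ω ∈ ExcN k q Y)).card : ℝ)
      ≤ ((((univ : Finset I).filter good).biUnion ZI).card : ℝ) := by
        exact_mod_cast card_le_card hsub
    _ ≤ ∑ i ∈ (univ : Finset I).filter good, ((ZI i).card : ℝ) := by
        exact_mod_cast card_biUnion_le
    _ ≤ ∑ i ∈ (univ : Finset I).filter good, 2 * S.card / B := sum_le_sum hZ
    _ = (((univ : Finset I).filter good).card : ℝ) * (2 * S.card / B) := by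
        rw [sum_const, nsmul_eq_mul]
    _ ≤ (Fintype.card I : ℝ) * (2 * S.card / B) := by
        apply mul_le_mul_of_nonneg_right _ (by positivity)
        exact_mod_cast card_le_univ _
    _ = _ := by rw [hcard]

end Pool.Agent.Y353.FD
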