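import Mathlib

/-!
Project FD (helper353): exponential sums `∑ w l * a l ^ i` modulo `m` are not small on long windows.
-/

set_option autoImplicit false

namespace Pool.Agent.Y353.FD

open Finset

/-- distance to the multiples of `m` -/
def nn {m : ℕ} (x : ZMod m) : ℕ := x.valMinAbs.natAbs

theorem nn_le {m : ℕ} [NeZero m] (x : ZMod m) : 2 * nn x ≤ m := by
  have := x.natAbs_valMinAbs_le
  unfold nn
  omega

theorem nn_pos {m : ℕ} {x : ZMod m} (hx : x ≠ 0) : 1 ≤ nn x := by
  unfold nn
  rw [Nat.one_le_iff_ne_zero, Ne, Int.natAbs_eq_zero, ZMod.valMinAbs_eq_zero]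
  exact hx

theorem nn_intCast_le {m : ℕ} [NeZero m] (y : ℤ) : nn ((y : ℤ) : ZMod m) ≤ y.natAbs := by
  unfold nn
  apply ZMod.natAbs_min_of_le_div_two m
  · rw [ZMod.coe_valMinAbs]
  · exact ZMod.natAbs_valMinAbs_le _

theorem nn_add_le {m : ℕ} [NeZero m] (x y : ZMod m) : nn (x + y) ≤ nn x + nn y := by
  unfold nn
  exact (ZMod.natAbs_valMinAbs_add_le x y).trans (Int.natAbs_add_le _ _)

theorem nn_mul_le {m : ℕ} [NeZero m] (a : ℤ) (x : ZMod m) : nn ((a : ZMod m) * x) ≤ a.natAbs * nn x := by
  have h1 : (a : ZMod m) * x = ((a * x.valMinAbs : ℤ) : ZMod m) := by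
    rw [Int.cast_mul, ZMod.coe_valMinAbs]
  rw [h1]
  refine (nn_intCast_le _).trans ?_
  rw [Int.natAbs_mul]
  rfl

theorem nn_mul_eq {m : ℕ} [NeZero m] (a : ℤ) (x : ZMod m) (h : 2 * (a.natAbs * nn x) < m) :
    nn ((a : ZMod m) * x) = a.natAbs * nn x := by
  have h1 : ((a : ZMod m) * x).valMinAbs = a * x.valMinAbs := by
    rw [ZMod.valMinAbs_spec]
    refine ⟨by rw [Int.cast_mul, ZMod.coe_valMinAbs], ?_⟩
    have h2 : (a * x.valMinAbs).natAbs = a.natAbs * nn x := by
      rw [Int.natAbs_mul]; rfl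
    rw [Set.mem_Ioc]
    constructor <;> omega
  unfold nn
  rw [h1, Int.natAbs_mul]

/-- geometric growth -/
theorem geo {m : ℕ} [NeZero m] (a : ℤ) (ha : 2 ≤ a.natAbs) (s : ℕ → ZMod m) (K : ℕ) (hK : m < 2 ^ K)
    (hs : ∀ i < K, s (i + 1) = (a : ZMod m) * s i)
    (hsm : ∀ i < K, 2 * (a.natAbs * nn (s i)) < m) : s 0 = 0 := by
  by_contra h0
  have key : ∀ i ≤ K, 2 ^ i ≤ nn (s i) := by
    intro i
    induction i with
    | zero => intro _; exact nn_pos h0
    | succ i ih =>
      intro hi
      rw [hs i (by omega), nn_mul_eq a (s i) (hsm i (by omega)), pow_succ, mul_comm]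
      exact Nat.mul_le_mul ha (ih (by omega))
  have h1 := key K le_rfl
  have h2 := nn_le (s K)
  omega

/-- **Exponential sums are not small on long windows.** -/
theorem grow {m : ℕ} [NeZero m] (K : ℕ) (hK : m < 2 ^ K) : ∀ (k : ℕ) (a : Fin k → ℤ)
    (w : Fin k → ZMod m), (∀ l, 2 ≤ (a l).natAbs) →
    (∀ l l', l ≠ l' → IsUnit ((a l - a l' : ℤ) : ZMod m)) →
    (∀ i < K + k, 4 * (∏ l, (1 + (a l).natAbs)) * nn (∑ l, w l * (a l : ZMod m) ^ i) ≤ m) →
    ∀ l, w l = 0 := by
  intro k
  induction k with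
  | zero => intro a w _ _ _ l; exact l.elim0
  | succ k ih =>
    intro a w ha hu h
    have hm : 0 < m := Nat.pos_of_ne_zero (NeZero.ne m)
    set s : ℕ → ZMod m := fun i => ∑ l, w l * (a l : ZMod m) ^ i with hs
    set C' := 4 * ∏ l : Fin k, (1 + (a l.succ).natAbs) with hC'
    have hC : 4 * (∏ l, (1 + (a l).natAbs)) = C' * (1 + (a 0).natAbs) := by
      rw [Fin.prod_univ_succ, hC']
      ring
    have hC'1 : 4 ≤ C' := by
      have : 1 ≤ ∏ l : Fin k, (1 + (a l.succ).natAbs) :=
        Finset.one_le_prod' fun l _ => by omega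
      omega
    have hsm : ∀ i < K + (k + 1), C' * (1 + (a 0).natAbs) * nn (s i) ≤ m := by
      intro i hi
      rw [← hC]
      exact h i hi
    set w' : Fin k → ZMod m := fun l => w l.succ * ((a l.succ - a 0 : ℤ) : ZMod m) with hw'
    have hy : ∀ i, ∑ l, w' l * (a l.succ : ZMod m) ^ i = s (i + 1) + ((-(a 0) : ℤ) : ZMod m) * s i := by
      intro i
      simp only [hs]
      rw [Fin.sum_univ_succ, Fin.sum_univ_succ, mul_add, mul_sum]
      have e1 : ∑ l : Fin k, w' l * (a l.succ : ZMod m) ^ i =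
          ∑ l : Fin k, w l.succ * (a l.succ : ZMod m) ^ (i + 1) +
          ∑ l : Fin k, ((-(a 0) : ℤ) : ZMod m) * (w l.succ * (a l.succ : ZMod m) ^ i) := by
        rw [← sum_add_distrib]
        refine sum_congr rfl fun l _ => ?_
        simp only [hw']
        push_cast
        ring
      rw [e1]
      push_cast
      ring
    have h1 : ∀ l, w' l = 0 := by
      apply ih (fun l => a l.succ) w' (fun l => ha _)
      · intro l l' hll
        exact hu _ _ (fun h => hll (Fin.succ_injective _ h))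
      · intro i hi
        rw [hy i]
        have b1 := hsm i (by omega)
        have b2 := hsm (i + 1) (by omega)
        have b3 : nn (s (i + 1) + ((-(a 0) : ℤ) : ZMod m) * s i) ≤
            nn (s (i + 1)) + (a 0).natAbs * nn (s i) := by
          refine (nn_add_le _ _).trans ?_
          have := nn_mul_le (-(a 0)) (s i)
          rw [Int.natAbs_neg] at this
          omega
        have b4 : (1 + (a 0).natAbs) * (C' * nn (s (i + 1) + ((-(a 0) : ℤ) : ZMod m) * s i)) ≤
            (1 + (a 0).natAbs) * m := by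
          calc (1 + (a 0).natAbs) * (C' * nn (s (i + 1) + ((-(a 0) : ℤ) : ZMod m) * s i))
              ≤ (1 + (a 0).natAbs) * (C' * (nn (s (i + 1)) + (a 0).natAbs * nn (s i))) := by gcongr
            _ = C' * (1 + (a 0).natAbs) * nn (s (i + 1)) +
                (a 0).natAbs * (C' * (1 + (a 0).natAbs) * nn (s i)) := by ring
            _ ≤ m + (a 0).natAbs * m := by gcongr
            _ = _ := by ring
        exact Nat.le_of_mul_le_mul_left b4 (by omega)
    have h2 : ∀ l : Fin k, w l.succ = 0 := by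
      intro l
      have h3 := h1 l
      simp only [hw'] at h3
      exact ((hu l.succ 0 (Fin.succ_ne_zero l)).mul_left_eq_zero).1 h3
    have h3 : ∀ i, s i = w 0 * (a 0 : ZMod m) ^ i := by
      intro i
      simp only [hs]
      rw [Fin.sum_univ_succ, sum_eq_zero fun l _ => by rw [h2 l, zero_mul], add_zero]
    have h4 : s 0 = 0 := by
      apply geo (a 0) (ha 0) s K hK
      · intro i _
        rw [h3, h3]
        ring
      · intro i hi
        have b1 := hsm i (by omega)
        have b2 : 4 * (a 0).natAbs * nn (s i) ≤ C' * (1 + (a 0).natAbs) * nn (s i) := by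
          gcongr
          omega
        have b3 : 4 * (a 0).natAbs * nn (s i) = 2 * (2 * ((a 0).natAbs * nn (s i))) := by ring
        omega
    intro l
    refine Fin.cases ?_ (fun l => h2 l) l
    have := h3 0
    rw [h4, pow_zero, mul_one] at this
    exact this.symm

end Pool.Agent.Y353.FD
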