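import Pool.Agent.Y353.FD.Sieve
import Pool.Agent.Y353.FD.Grow

/-!
Project FD (helper353): Fourier coefficients of linear forms in independent digits.
-/

set_option autoImplicit false

namespace Pool.Agent.Y353.FD

open Finset
open Pool.Agent.Helper112 (ee ls_ee_zero ls_ee_add ls_ee_int ls_conj_ee ls_norm_ee)

theorem norm_ee_add (x y : ℝ) : ‖ee x + ee y‖ = 2 * |Real.cos (Real.pi * (x - y))| := by
  have h1 : ee x = ee ((x + y) / 2) * ee ((x - y) / 2) := by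
    rw [← ls_ee_add]; congr 1; ring
  have h2 : ee y = ee ((x + y) / 2) * ee (-((x - y) / 2)) := by
    rw [← ls_ee_add]; congr 1; ring
  have h3 : ee ((x - y) / 2) + ee (-((x - y) / 2)) = ((2 * Real.cos (Real.pi * (x - y)) : ℝ) : ℂ) := by
    unfold ee
    push_cast
    rw [Complex.cos]
    have e1 : 2 * (Real.pi : ℂ) * ((x - y) / 2) * Complex.I =
        (Real.pi : ℂ) * (x - y) * Complex.I := by ring
    have e2 : 2 * (Real.pi : ℂ) * (-((x - y) / 2)) * Complex.I =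
        -((Real.pi : ℂ) * (x - y)) * Complex.I := by ring
    rw [e1, e2]
    ring
  rw [h1, h2, ← mul_add, h3, norm_mul, ls_norm_ee, one_mul, Complex.norm_real, Real.norm_eq_abs,
    abs_mul, abs_two]

theorem abs_cos_le {m : ℕ} [NeZero m] (y : ℤ) :
    |Real.cos (Real.pi * ((y : ℝ) / m))| ≤ 1 - 2 * ((nn ((y : ℤ) : ZMod m) : ℝ) / m) ^ 2 := by
  have hm : (0 : ℝ) < m := by exact_mod_cast Nat.pos_of_ne_zero (NeZero.ne m)
  set r : ℤ := ((y : ℤ) : ZMod m).valMinAbs with hr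
  have h1 : (m : ℤ) ∣ y - r := by
    rw [← ZMod.intCast_zmod_eq_zero_iff_dvd]
    push_cast
    rw [hr, ZMod.coe_valMinAbs, sub_self]
  obtain ⟨q, hq⟩ := h1
  have h2 : (y : ℝ) = r + m * q := by
    have : y = r + m * q := by linarith
    exact_mod_cast this
  have h3 : Real.pi * ((y : ℝ) / m) = Real.pi * ((r : ℝ) / m) + q * Real.pi := by
    rw [h2]
    field_simp
  have h4 : ((nn ((y : ℤ) : ZMod m) : ℕ) : ℝ) = |(r : ℝ)| := by
    unfold nn
    rw [← hr, Nat.cast_natAbs, Int.cast_abs]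
  have h5 : 2 * |(r : ℝ)| ≤ m := by
    have := nn_le ((y : ℤ) : ZMod m)
    rw [← h4]
    exact_mod_cast this
  have h6 : |(r : ℝ) / m| ≤ 1 / 2 := by
    rw [abs_div, abs_of_pos hm, div_le_iff₀ hm]
    linarith
  rw [h3, Real.cos_add_int_mul_pi, abs_mul, abs_zpow, abs_neg, abs_one, one_zpow, one_mul, h4]
  have h7 : 0 ≤ Real.cos (Real.pi * ((r : ℝ) / m)) := by
    apply Real.cos_nonneg_of_mem_Icc
    have := abs_le.1 h6
    have hpi := Real.pi_pos
    constructor <;> nlinarith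
  rw [abs_of_nonneg h7]
  have h8 : |Real.pi * ((r : ℝ) / m)| ≤ Real.pi := by
    rw [abs_mul, abs_of_pos Real.pi_pos]
    have hpi := Real.pi_pos
    nlinarith [abs_nonneg ((r : ℝ) / m)]
  have h9 := Real.cos_le_one_sub_mul_cos_sq h8
  refine h9.trans (le_of_eq ?_)
  have hpi : Real.pi ≠ 0 := Real.pi_ne_zero
  rw [div_pow, sq_abs]
  field_simp

theorem digit_le (D : Finset ℤ) {d1 d2 : ℤ} (h1 : d1 ∈ D) (h2 : d2 ∈ D) (hne : d1 ≠ d2) {m : ℕ}
    [NeZero m] (s : ℤ) : ‖∑ d ∈ D, ee ((d : ℝ) * s / m)‖ ≤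
      D.card - 4 * ((nn (((d1 - d2) * s : ℤ) : ZMod m) : ℝ) / m) ^ 2 := by
  classical
  have h3 : d2 ∈ D.erase d1 := mem_erase.2 ⟨hne.symm, h2⟩
  rw [← add_sum_erase D _ h1, ← add_sum_erase (D.erase d1) _ h3, ← add_assoc]
  refine (norm_add_le _ _).trans ?_
  have h4 : ‖ee ((d1 : ℝ) * s / m) + ee ((d2 : ℝ) * s / m)‖ ≤
      2 - 4 * ((nn (((d1 - d2) * s : ℤ) : ZMod m) : ℝ) / m) ^ 2 := by
    rw [norm_ee_add]
    have e1 : (d1 : ℝ) * s / m - (d2 : ℝ) * s / m = (((d1 - d2) * s : ℤ) : ℝ) / m := by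
      push_cast
      ring
    rw [e1]
    have := abs_cos_le (m := m) ((d1 - d2) * s)
    linarith
  have h5 : ‖∑ d ∈ (D.erase d1).erase d2, ee ((d : ℝ) * s / m)‖ ≤ (D.card : ℝ) - 2 := by
    refine (norm_sum_le _ _).trans ?_
    rw [sum_congr rfl fun d _ => ls_norm_ee _, sum_const, nsmul_eq_mul, mul_one]
    have c1 := card_erase_of_mem h1
    have c2 := card_erase_of_mem h3
    have c3 : 0 < (D.erase d1).card := card_pos.2 ⟨_, h3⟩
    have c4 : ((D.erase d1).erase d2).card + 2 = D.card := by omega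
    have : (((D.erase d1).erase d2).card : ℝ) + 2 = D.card := by exact_mod_cast c4
    linarith
  linarith

theorem digit_le_exp (D : Finset ℤ) {d1 d2 : ℤ} (h1 : d1 ∈ D) (h2 : d2 ∈ D) (hne : d1 ≠ d2) {m : ℕ}
    [NeZero m] (s : ℤ) {κ : ℝ} (hκ : 0 ≤ κ) {B : ℕ} (hB : D.card ≤ B)
    (h : κ * m ≤ nn (((d1 - d2) * s : ℤ) : ZMod m)) :
    ‖∑ d ∈ D, ee ((d : ℝ) * s / m)‖ ≤ D.card * Real.exp (-(4 * κ ^ 2 / B)) := by
  have hm : (0 : ℝ) < m := by exact_mod_cast Nat.pos_of_ne_zero (NeZero.ne m)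
  refine (digit_le D h1 h2 hne (m := m) s).trans ?_
  have hD0 : 0 < D.card := card_pos.2 ⟨_, h1⟩
  have hD : (0 : ℝ) < D.card := by exact_mod_cast hD0
  have hB0 : (0 : ℝ) < B := by exact_mod_cast lt_of_lt_of_le hD0 hB
  have hDB : (D.card : ℝ) ≤ B := by exact_mod_cast hB
  have e1 : κ ≤ (nn (((d1 - d2) * s : ℤ) : ZMod m) : ℝ) / m := by
    rw [le_div_iff₀ hm]
    exact h
  have e2 : κ ^ 2 ≤ ((nn (((d1 - d2) * s : ℤ) : ZMod m) : ℝ) / m) ^ 2 := pow_le_pow_left₀ hκ e1 2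
  have e3 := Real.add_one_le_exp (-(4 * κ ^ 2 / B))
  have e4 : D.card * (4 * κ ^ 2 / B) ≤ 4 * κ ^ 2 := by
    rw [mul_div_assoc', div_le_iff₀ hB0]
    nlinarith [sq_nonneg κ]
  have e5 : (D.card : ℝ) * (-(4 * κ ^ 2 / B) + 1) ≤ D.card * Real.exp (-(4 * κ ^ 2 / B)) := by
    gcongr
  nlinarith

theorem ee_sum {ι : Type*} (s : Finset ι) (f : ι → ℝ) : ee (∑ i ∈ s, f i) = ∏ i ∈ s, ee (f i) := by
  classical
  induction s using Finset.induction_on with
  | empty => simp [ls_ee_zero]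
  | insert a s ha ih => rw [sum_insert ha, prod_insert ha, ls_ee_add, ih]

/-- the linear map given by `v` -/
def lin {ι : Type*} [Fintype ι] {k : ℕ} (v : ι → Fin k → ℤ) (ω : ι → ℤ) : Fin k → ℤ :=
  fun l => ∑ i, ω i * v i l

theorem sum_lin {ι : Type*} [Fintype ι] [DecidableEq ι] {k : ℕ} (D : ι → Finset ℤ)
    (v : ι → Fin k → ℤ) (b : Fin k → ℤ) (m : ℕ) :
    ∑ ω ∈ Fintype.piFinset D, wv (lin v ω) b m =
      ∏ i, ∑ d ∈ D i, ee ((d : ℝ) * ((∑ l, v i l * b l : ℤ) : ℝ) / m) := by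
  rw [prod_univ_sum]
  refine sum_congr rfl fun ω _ => ?_
  rw [← ee_sum]
  unfold wv lin
  congr 1
  simp only [Int.cast_sum, Int.cast_mul, sum_mul, mul_sum, sum_div]
  rw [sum_comm]
  refine sum_congr rfl fun i _ => sum_congr rfl fun l _ => ?_
  ring

/-- **Decay.** -/
theorem decay {ι : Type*} [Fintype ι] [DecidableEq ι] {k : ℕ} (D : ι → Finset ℤ)
    (v : ι → Fin k → ℤ) (b : Fin k → ℤ) (m : ℕ) [NeZero m] (J : Finset ι) {κ : ℝ} (hκ : 0 ≤ κ)
    {B : ℕ} (hB : ∀ i ∈ J, (D i).card ≤ B)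
    (h : ∀ i ∈ J, ∃ d1 ∈ D i, ∃ d2 ∈ D i, d1 ≠ d2 ∧
      κ * m ≤ nn (((d1 - d2) * ∑ l, v i l * b l : ℤ) : ZMod m)) :
    ‖∑ ω ∈ Fintype.piFinset D, wv (lin v ω) b m‖ ≤
      ((Fintype.piFinset D).card : ℝ) * Real.exp (-(4 * κ ^ 2 / B * J.card)) := by
  rw [sum_lin, norm_prod, Fintype.card_piFinset, Nat.cast_prod]
  have h1 : ∀ i, ‖∑ d ∈ D i, ee ((d : ℝ) * ((∑ l, v i l * b l : ℤ) : ℝ) / m)‖ ≤
      (D i).card * (if i ∈ J then Real.exp (-(4 * κ ^ 2 / B)) else 1) := by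
    intro i
    split_ifs with hi
    · obtain ⟨d1, hd1, d2, hd2, hne, hk⟩ := h i hi
      exact digit_le_exp (D i) hd1 hd2 hne _ hκ (hB i hi) hk
    · rw [mul_one]
      refine (norm_sum_le _ _).trans ?_
      rw [sum_congr rfl fun d _ => ls_norm_ee _, sum_const, nsmul_eq_mul, mul_one]
  refine (prod_le_prod (fun i _ => norm_nonneg _) (fun i _ => h1 i)).trans (le_of_eq ?_)
  rw [prod_mul_distrib]
  congr 1
  rw [prod_ite_mem, univ_inter, prod_const, ← Real.exp_nat_mul]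
  congr 1
  ring

/-- windows -/
theorem windows {L w : ℕ} (hw : 0 < w) (good : Fin L → Prop) [DecidablePred good]
    (h : ∀ q : ℕ, (q + 1) * w ≤ L → ∃ i : Fin L, q * w ≤ (i : ℕ) ∧ (i : ℕ) < (q + 1) * w ∧ good i) :
    L / w ≤ ((univ : Finset (Fin L)).filter good).card := by
  have h1 : (range (L / w)) ⊆
      ((univ : Finset (Fin L)).filter good).image (fun i : Fin L => (i : ℕ) / w) := by
    intro q hq
    rw [mem_range] at hq
    obtain ⟨i, h2, h3, h4⟩ := h q (by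
      calc (q + 1) * w ≤ (L / w) * w := Nat.mul_le_mul_right _ hq
        _ ≤ L := Nat.div_mul_le_self L w)
    rw [mem_image]
    refine ⟨i, mem_filter.2 ⟨mem_univ _, h4⟩, ?_⟩
    rw [Nat.div_eq_iff hw]
    constructor
    · exact h2
    · rw [add_mul, one_mul] at h3
      omega
  calc L / w = (range (L / w)).card := (card_range _).symm
    _ ≤ _ := card_le_card h1
    _ ≤ _ := card_image_le

end Pool.Agent.Y353.FD
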