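import Pool.Agent.TH194.BL.FinW2
import Pool.Agent.Y353.FD.Cover

/-!
Project FD (helper353): choice of the parameters; the exceptional set of a Fourier decaying map.
-/

set_option autoImplicit false

namespace Pool.Agent.Y353.FD

open Finset Filter
open Pool.Agent.TH194.BL Pool.Agent.TH194.BL.W

open Classical in
/-- **Few exceptions for Fourier decaying maps.** -/
theorem one_meas (k M : ℕ) (hM : 1 ≤ M) {ε : ℝ} (h0 : 0 < ε) (h1 : ε ≤ 1 / 8) :
    ∃ N₀ : ℕ, ∀ N : ℕ, N₀ ≤ N → ∀ Wd : ℕ, 0 < Wd → Real.log Wd ≤ Real.log N * Real.log 2 →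
    ∀ {Ω : Type} (S : Finset Ω) (F : Ω → Fin k → ℤ),
    (∀ m : ℕ, 0 < m → m ≤ N → m.Coprime Wd → ∀ b : Fin k → ℤ, (¬ ∀ i, (m : ℤ) ∣ b i) →
      ‖∑ ω ∈ S, wv (F ω) b m‖ ≤ (N : ℝ) ^ (-((k : ℝ) + 1)) * S.card) →
    ((S.filter (fun ω => F ω ∈ ExcZ k M (HH N ε))).card : ℝ) ≤
      (N : ℝ) ^ (-(1 / 4) + ε) * S.card := by
  set K' : ℕ := k * M + M + k * 2 ^ (M + 1) + k with hK'
  obtain ⟨T₀, hT₀⟩ := ssp (1 / 2 + ε / 16) (ε / 16) (by linarith) (by linarith) (by linarith) 1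
  have hev := (Real.tendsto_log_atTop.comp tendsto_natCast_atTop_atTop).eventually
    ((ev_par K' 1 h0 h1 (max T₀ 2)).and (ev_parW M h0 h1))
  obtain ⟨N₀, hN₀⟩ := eventually_atTop.1 hev
  refine ⟨max N₀ 1, fun N hN Wd hWd hWlog Ω S F hFD => ?_⟩
  have hN1 : 1 ≤ N := (le_max_right _ _).trans hN
  obtain ⟨hp, hw⟩ : Par K' 1 ε (max T₀ 2) (Real.log N) ∧ ParW M ε (Real.log N) :=
    hN₀ N ((le_max_left _ _).trans hN)
  set L := Real.log N with hL
  have hNR : (0 : ℝ) < N := by exact_mod_cast hN1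
  have hNexp : (N : ℝ) = Real.exp L := (Real.exp_log hNR).symm
  have hL0 : 0 < L := by linarith [hp.l1]
  have hll : 0 < Real.log L := by linarith [hp.ll]
  have hal := al_ge h0 h1
  have hal2 := al_le h0
  set T := ⌊L ^ al ε⌋₊ with hT
  have hTR : (T : ℝ) ≤ L ^ al ε := Nat.floor_le (by positivity)
  have hT2 : 2 ≤ T := (le_max_right _ _).trans hp.t0
  have hT0 : (0 : ℝ) < T := by exact_mod_cast (by omega : 0 < T)
  have hlogT : Real.log T ≤ al ε * Real.log L := by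
    have := Real.log_le_log hT0 hTR
    rwa [Real.log_rpow hL0] at this
  have hlogL : Real.log L ≤ Real.log T := Real.log_le_log hL0 hp.tL
  -- primes
  set P₀ := (Icc 1 T).filter (fun t : ℕ => t.Prime ∧ t % 4 = 3 ∧ 2 ∣ t - 1 ∧
    ∀ p : ℕ, p.Prime → p ∣ t - 1 → (p : ℝ) ≤ (T : ℝ) ^ (1 / 2 + ε / 16)) with hP₀
  have hP₀c : (T : ℝ) ^ (1 - ε / 16) ≤ (P₀.card : ℝ) := by
    have h := hT₀ T ((le_max_left _ _).trans hp.t0) 2 Nat.prime_two
      (by rw [pow_one]; push_cast; linarith [hw.ll2])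
    refine h.trans (le_of_eq ?_)
    rw [hP₀]
  have hP₀prime : ∀ t ∈ P₀, t.Prime := by
    intro t ht
    rw [hP₀, mem_filter] at ht
    exact ht.2.1
  set P₁ := P₀.filter (fun t => k * 2 ^ (M + 1) ≤ t) with hP₁
  have hP₁c : L ^ (al ε * (1 - ε / 8)) / 2 ≤ (P₁.card : ℝ) := by
    have c1 : P₀.card ≤ P₁.card + k * 2 ^ (M + 1) := by
      have : P₀ ⊆ P₁ ∪ Icc 1 (k * 2 ^ (M + 1)) := by
        intro t ht
        rw [mem_union, hP₁, mem_filter, mem_Icc]
        have h1 : 1 ≤ t := by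
          rw [hP₀, mem_filter, mem_Icc] at ht
          exact ht.1.1
        rcases le_total (k * 2 ^ (M + 1)) t with h | h
        · left; exact ⟨ht, h⟩
        · right; exact ⟨h1, h⟩
      calc P₀.card ≤ (P₁ ∪ Icc 1 (k * 2 ^ (M + 1))).card := card_le_card this
        _ ≤ P₁.card + (Icc 1 (k * 2 ^ (M + 1))).card := card_union_le _ _
        _ = _ := by rw [Nat.card_Icc, Nat.add_sub_cancel]
    have c2 : (P₀.card : ℝ) ≤ P₁.card + ((k * 2 ^ (M + 1) : ℕ) : ℝ) := by exact_mod_cast c1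
    have c5 : ((k * 2 ^ (M + 1) : ℕ) : ℝ) ≤ 16 * ((K' : ℝ) + 4) ^ 2 := by
      have e1 : k * 2 ^ (M + 1) ≤ K' := by rw [hK']; omega
      have e2 : ((k * 2 ^ (M + 1) : ℕ) : ℝ) ≤ (K' : ℝ) := by exact_mod_cast e1
      nlinarith [show (0 : ℝ) ≤ K' from Nat.cast_nonneg K']
    have c3 := hp.tk
    have c4 : L ^ (al ε * (1 - ε / 8)) / 2 ≤ (T : ℝ) ^ (1 - ε / 8) := by
      have d1 : (L ^ al ε / 2) ^ (1 - ε / 8) ≤ (T : ℝ) ^ (1 - ε / 8) :=
        Real.rpow_le_rpow (by positivity) hp.tl (by linarith)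
      have d2 : (L ^ al ε / 2) ^ (1 - ε / 8) = L ^ (al ε * (1 - ε / 8)) / 2 ^ (1 - ε / 8) := by
        rw [Real.div_rpow (by positivity) (by norm_num), ← Real.rpow_mul hL0.le]
      have d3 : (2 : ℝ) ^ (1 - ε / 8) ≤ 2 := by
        calc (2 : ℝ) ^ (1 - ε / 8) ≤ 2 ^ (1 : ℝ) :=
              Real.rpow_le_rpow_of_exponent_le (by norm_num) (by linarith)
          _ = 2 := Real.rpow_one 2
      calc L ^ (al ε * (1 - ε / 8)) / 2 ≤ L ^ (al ε * (1 - ε / 8)) / 2 ^ (1 - ε / 8) := by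
            gcongr
        _ = _ := d2.symm
        _ ≤ _ := d1
    linarith
  set P := P₁.filter (fun t : ℕ => ¬ (t : ℤ) ∣ (Wd : ℤ)) with hP
  have hPc : L ^ (al ε * (1 - ε / 8)) / 2 - L ≤ (P.card : ℝ) := by
    have c1 := few_dvd (P := P₁) (fun t ht => hP₀prime t (mem_filter.1 ht).1)
      (s := (Wd : ℤ)) (by exact_mod_cast hWd.ne')
    have c2 : (P₁.filter (fun t : ℕ => (t : ℤ) ∣ (Wd : ℤ))).card + P.card = P₁.card := by
      rw [hP]
      exact card_filter_add_card_filter_not _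
    have c3 : ((P₁.filter (fun t : ℕ => (t : ℤ) ∣ (Wd : ℤ))).card : ℝ) + P.card = P₁.card := by
      exact_mod_cast c2
    have c4 : ((P₁.filter (fun t : ℕ => (t : ℤ) ∣ (Wd : ℤ))).card : ℝ) ≤ L := by
      have d5 : (0 : ℝ) < Real.log 2 := Real.log_pos (by norm_num)
      have d6 : Real.log |((Wd : ℤ) : ℝ)| ≤ L * Real.log 2 := by
        rw [Int.cast_natCast, abs_of_nonneg (Nat.cast_nonneg _)]
        exact hWlog
      exact le_of_mul_le_mul_right (c1.trans d6) d5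
    linarith
  have hPmem : ∀ t ∈ P, t ≤ T ∧ t.Prime ∧ t % 4 = 3 ∧
      (∀ p : ℕ, p.Prime → p ∣ t - 1 → (p : ℝ) ≤ (T : ℝ) ^ (1 / 2 + ε / 16)) ∧
      k * 2 ^ (M + 1) ≤ t ∧ ¬ t ∣ Wd := by
    intro t ht
    rw [hP, mem_filter, hP₁, mem_filter, hP₀, mem_filter, mem_Icc] at ht
    exact ⟨ht.1.1.1.2, ht.1.1.2.1, ht.1.1.2.2.1, ht.1.1.2.2.2.2, ht.1.2,
      fun h => ht.2 (by exact_mod_cast h)⟩
  -- small primes
  set Y' := L ^ (1 - ε / 2) with hY'
  set S' := (Icc 1 ⌊Y'⌋₊).filter (fun p : ℕ => p.Prime) with hS'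
  have hY'0 : 0 < Y' := by linarith [hp.y2]
  have hSc : (S'.card : ℝ) ≤ Y' := by
    calc (S'.card : ℝ) ≤ ((Icc 1 ⌊Y'⌋₊).card : ℝ) := by exact_mod_cast card_filter_le _ _
      _ = (⌊Y'⌋₊ : ℝ) := by rw [Nat.card_Icc, Nat.add_sub_cancel]
      _ ≤ Y' := Nat.floor_le hY'0.le
  have hSp : ∀ p ∈ S', p.Prime := fun p hp' => (mem_filter.1 hp').2
  have hSmem : ∀ p : ℕ, p.Prime → (p : ℝ) ≤ Y' → p ∈ S' := by
    intro p hpp hpY
    rw [hS', mem_filter, mem_Icc]
    exact ⟨⟨hpp.one_le, Nat.le_floor hpY⟩, hpp⟩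
  have hTth : (T : ℝ) ^ (1 / 2 + ε / 16) ≤ Y' := by
    calc (T : ℝ) ^ (1 / 2 + ε / 16) ≤ (L ^ al ε) ^ (1 / 2 + ε / 16) :=
          Real.rpow_le_rpow hT0.le hTR (by linarith)
      _ = L ^ (al ε * (1 / 2 + ε / 16)) := by rw [← Real.rpow_mul hL0.le]
      _ = Y' := by rw [al_mul h0]
  -- j and Q
  set Q := Nat.sqrt N with hQ
  have hQ2 : Q ^ 2 ≤ N := by rw [sq]; exact Nat.sqrt_le N
  have hQ1 : 1 ≤ Q := by
    rw [hQ, Nat.le_sqrt]
    omega
  set j := Nat.log T Q with hj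
  have hTj : T ^ j ≤ Q := Nat.pow_log_le_self T (by omega)
  have hTj2 : Q < T ^ (j + 1) := Nat.lt_pow_succ_log_self (by omega) Q
  have hNQ : N < (Q + 1) ^ 2 := by rw [sq]; exact Nat.lt_succ_sqrt N
  have hlT : 1 ≤ Real.log T := by linarith [hp.ll]
  have hj1 : (j : ℝ) ≤ L := by
    have a1 : (T : ℝ) ^ j ≤ Q := by exact_mod_cast hTj
    have a2 := Real.log_le_log (by positivity) a1
    rw [Real.log_pow] at a2
    have a3 : Real.log Q ≤ L := by
      apply Real.log_le_log (by exact_mod_cast hQ1)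
      have : Q ≤ Q ^ 2 := Nat.le_self_pow (by norm_num) Q
      exact_mod_cast this.trans hQ2
    have a4 : (j : ℝ) * 1 ≤ j * Real.log T := by gcongr
    linarith
  have hj2 : L / 2 ≤ (j + 1) * (al ε * Real.log L) := by
    have a1 : N < (T ^ (j + 1)) ^ 2 := lt_of_lt_of_le hNQ (Nat.pow_le_pow_left hTj2 2)
    have a2 : (N : ℝ) ≤ ((T : ℝ) ^ (j + 1)) ^ 2 := by exact_mod_cast a1.le
    have a3 := Real.log_le_log hNR a2
    rw [← pow_mul, Real.log_pow, ← hL] at a3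
    push_cast at a3
    have a4 : ((j : ℝ) + 1) * 2 * Real.log T ≤ (j + 1) * 2 * (al ε * Real.log L) := by gcongr
    linarith
  set H := HH N ε with hH
  have hHle : (H : ℝ) ≤ Real.exp (L ^ (1 - ε)) := Nat.floor_le (Real.exp_pos _).le
  have hH1 : 1 ≤ H := by
    rw [hH]
    unfold HH
    apply Nat.le_floor
    rw [Nat.cast_one]
    apply Real.one_le_exp
    positivity
  have hPprime : ∀ t ∈ P, t.Prime := fun t ht => (hPmem t ht).2.1
  set Bd : ℝ := Real.exp ((1 / 4 - 3 * ε / 8) * L) with hBd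
  have hBin : ∀ P' ⊆ P, ∀ s : ℤ, s ≠ 0 → |s| ≤ M * H →
      P' = P.filter (fun t : ℕ => ¬ (t : ℤ) ∣ s) →
      Bd ≤ (P'.card.choose j : ℝ) * ((1 / 2) ^ (M + 1)) ^ j := by
    intro P' _ s hs hsb hP'
    apply sieve_sumG h0 h1 hp hw _ hj1 hj2
    have c1 := few_dvd hPprime hs
    have c2 : (P.filter (fun t : ℕ => (t : ℤ) ∣ s)).card + P'.card = P.card := by
      rw [hP']
      exact card_filter_add_card_filter_not _
    have c3 : ((P.filter (fun t : ℕ => (t : ℤ) ∣ s)).card : ℝ) + P'.card = P.card := by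
      exact_mod_cast c2
    have c4 : Real.log |(s : ℝ)| ≤ L * Real.log 2 := by
      have d1 : |(s : ℝ)| ≤ (M + 1) * Real.exp (L ^ (1 - ε)) := by
        have d2 : |(s : ℝ)| ≤ M * H := by exact_mod_cast hsb
        calc |(s : ℝ)| ≤ M * H := d2
          _ ≤ M * Real.exp (L ^ (1 - ε)) := by gcongr
          _ ≤ (M + 1) * Real.exp (L ^ (1 - ε)) := by
              apply mul_le_mul_of_nonneg_right _ (Real.exp_pos _).le
              linarith
      have d3 : 0 < |(s : ℝ)| := abs_pos.2 (by exact_mod_cast hs)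
      have d4 := Real.log_le_log d3 d1
      rw [Real.log_mul (by positivity) (Real.exp_pos _).ne', Real.log_exp] at d4
      exact d4.trans hw.f8
    have c5 : ((P.filter (fun t : ℕ => (t : ℤ) ∣ s)).card : ℝ) ≤ L := by
      have d5 : (0 : ℝ) < Real.log 2 := Real.log_pos (by norm_num)
      exact le_of_mul_le_mul_right (c1.trans c4) d5
    have c6 := hw.f6
    linarith
  -- the error term
  set δ : ℝ := (N : ℝ) ^ (-((k : ℝ) + 1)) with hδ
  have hδ0 : 0 ≤ δ := by positivity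
  have hδQ : δ * ((P.card.choose j : ℝ) * (Q : ℝ) ^ k) ≤ 1 := by
    have d1 : P.card ≤ T := by
      calc P.card ≤ (Icc 1 T).card := card_le_card (by
            intro t ht
            rw [mem_Icc]
            exact ⟨(hPprime t ht).one_le, (hPmem t ht).1⟩)
        _ = T := by rw [Nat.card_Icc, Nat.add_sub_cancel]
    have d2 : P.card.choose j ≤ Q :=
      (Nat.choose_le_pow P.card j).trans ((Nat.pow_le_pow_left d1 j).trans hTj)
    have d3 : Q ≤ N := le_trans (Nat.le_self_pow (by norm_num) Q) hQ2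
    have d4 : (P.card.choose j : ℝ) * (Q : ℝ) ^ k ≤ (N : ℝ) ^ (k + 1) := by
      rw [pow_succ']
      have e1 : (P.card.choose j : ℝ) ≤ N := by exact_mod_cast d2.trans d3
      have e2 : (Q : ℝ) ≤ N := by exact_mod_cast d3
      gcongr
    have d5 : δ * (N : ℝ) ^ (k + 1) = 1 := by
      rw [hδ, ← Real.rpow_natCast, ← Real.rpow_add hNR]
      push_cast
      rw [neg_add_cancel, Real.rpow_zero]
    calc δ * ((P.card.choose j : ℝ) * (Q : ℝ) ^ k) ≤ δ * (N : ℝ) ^ (k + 1) := by gcongr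
      _ = 1 := d5
  have hmain := card_excM (k := k) (M := M) (H := H) (lam := lamOf S' T) (Q := Q) (j := j)
    (B := Bd) S F (P := P) hM hH1 hPprime
    (fun t ht => dvd_lamOf (hPmem t ht).1 (hPmem t ht).2.2.1
      (fun p hpp hpt => hSmem p hpp (((hPmem t ht).2.2.2.1 p hpp hpt).trans hTth)))
    (fun t ht => (hPmem t ht).2.2.2.2.1)
    (by
      intro D hD
      rw [mem_powersetCard] at hD
      calc ∏ t ∈ D, t ≤ ∏ t ∈ D, T := prod_le_prod' (fun t ht => (hPmem t (hD.1 ht)).1)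
        _ = T ^ j := by rw [prod_const, hD.2]
        _ ≤ Q := hTj)
    (lamOf_pos hSp) (Real.exp_pos _) hBin hδ0 hδQ
    (by
      intro m hm hmQ hmp b hb
      apply hFD m hm (hmQ.trans hQ2) _ b hb
      rw [Nat.coprime_iff_gcd_eq_one]
      by_contra hg
      obtain ⟨p, hpp, hpg⟩ := Nat.exists_prime_and_dvd hg
      exact (hPmem p (hmp p hpp (hpg.trans (Nat.gcd_dvd_left _ _)))).2.2.2.2.2
        (hpg.trans (Nat.gcd_dvd_right _ _)))
  refine hmain.trans ?_
  -- numerical estimate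
  have hlam0 : (0 : ℝ) < lamOf S' T := by exact_mod_cast lamOf_pos hSp
  have n1 : (lamOf S' T : ℝ) ^ (k * M) * (2 * H + 1 : ℝ) ^ M ≤ Real.exp (ε / 8 * L) := by
    have hpos : 0 < (lamOf S' T : ℝ) ^ (k * M) * (2 * H + 1 : ℝ) ^ M := by positivity
    rw [← Real.log_le_iff_le_exp hpos]
    rw [Real.log_mul (by positivity) (by positivity), Real.log_pow, Real.log_pow]
    have b1 : Real.log (lamOf S' T) ≤ (Y' + 1) * (2 * Real.log L) := by
      have c1 := Real.log_le_log hlam0 (lamOf_le (S := S') hT2)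
      rw [Real.log_pow] at c1
      push_cast at c1
      have c2 : Real.log T ≤ 2 * Real.log L := by
        refine hlogT.trans ?_
        gcongr
      calc Real.log (lamOf S' T) ≤ _ := c1
        _ ≤ (Y' + 1) * (2 * Real.log L) := by
            apply mul_le_mul (by linarith) c2 (by linarith) (by linarith)
    have b2 : Real.log (2 * H + 1 : ℝ) ≤ (Y' + 1) * (2 * Real.log L) := by
      have c1 : (2 * H + 1 : ℝ) ≤ 3 * Real.exp (L ^ (1 - ε)) := by
        have : (1 : ℝ) ≤ Real.exp (L ^ (1 - ε)) := Real.one_le_exp (by positivity)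
        linarith
      have c2 := Real.log_le_log (by positivity) c1
      rw [Real.log_mul (by norm_num) (Real.exp_pos _).ne', Real.log_exp] at c2
      have c3 : Real.log 3 ≤ 2 := by
        have := Real.log_le_sub_one_of_pos (show (0 : ℝ) < 3 by norm_num)
        linarith
      have c4 : L ^ (1 - ε) ≤ Y' := Real.rpow_le_rpow_of_exponent_le hp.l1 (by linarith)
      have c5 := hp.ll
      nlinarith
    have b3 : ((k * M : ℕ) : ℝ) * Real.log (lamOf S' T) ≤
        ((k * M : ℕ) : ℝ) * ((Y' + 1) * (2 * Real.log L)) := by gcongr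
    have b4 : (M : ℝ) * Real.log (2 * H + 1 : ℝ) ≤ M * ((Y' + 1) * (2 * Real.log L)) := by gcongr
    have e2 := hp.e2
    have b5 : ((k * M : ℕ) : ℝ) + M ≤ K' := by
      have : k * M + M ≤ K' := by rw [hK']; omega
      exact_mod_cast this
    have b6 : (((k * M : ℕ) : ℝ) + M) * ((Y' + 1) * (2 * Real.log L)) ≤
        K' * ((Y' + 1) * (2 * Real.log L)) := by gcongr
    have b7 : 0 ≤ (K' : ℝ) * ((Y' + 1) * Real.log L) := by positivity
    have b8 : 0 ≤ (Y' + 1) * Real.log L := by positivity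
    have b9 : 0 ≤ Real.log 2 := Real.log_nonneg (by norm_num)
    push_cast at b3 b4 b6 e2 ⊢
    nlinarith
  have n2 : 2 * (S.card : ℝ) / Bd ≤
      Real.exp (ε / 8 * L - (1 / 4 - 3 * ε / 8) * L) * S.card := by
    rw [sub_eq_add_neg, Real.exp_add, Real.exp_neg, mul_comm (2 : ℝ), mul_div_assoc, mul_comm]
    apply mul_le_mul_of_nonneg_right _ (Nat.cast_nonneg _)
    rw [← hBd, div_eq_mul_inv]
    apply mul_le_mul_of_nonneg_right _ (inv_nonneg.2 (Real.exp_pos _).le)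
    have e1 : (1 : ℝ) ≤ ε / 8 * L := by
      have := hp.e8
      have := hp.ll
      linarith
    calc (2 : ℝ) ≤ Real.exp 1 := by
          have := Real.add_one_le_exp (1 : ℝ)
          linarith
      _ ≤ Real.exp (ε / 8 * L) := Real.exp_le_exp.2 e1
  calc (lamOf S' T : ℝ) ^ (k * M) * (2 * H + 1 : ℝ) ^ M * (2 * S.card / Bd)
      ≤ Real.exp (ε / 8 * L) *
          (Real.exp (ε / 8 * L - (1 / 4 - 3 * ε / 8) * L) * S.card) := by
        exact mul_le_mul n1 n2
          (div_nonneg (mul_nonneg (by norm_num) (Nat.cast_nonneg _)) (Real.exp_pos _).le)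
          (Real.exp_pos _).le
    _ = Real.exp (ε / 8 * L + (ε / 8 * L - (1 / 4 - 3 * ε / 8) * L)) * S.card := by
        rw [← mul_assoc, ← Real.exp_add]
    _ ≤ Real.exp (L * (-(1 / 4) + ε)) * S.card := by
        apply mul_le_mul_of_nonneg_right _ (Nat.cast_nonneg _)
        apply Real.exp_le_exp.2
        nlinarith
    _ = (N : ℝ) ^ (-(1 / 4) + ε) * S.card := by
        rw [Real.rpow_def_of_pos hNR]

end Pool.Agent.Y353.FD
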