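import Pool.Agent.Y353.FD.Decay
import Pool.Agent.Y353.FD.Param

/-!
Project FD (helper353): the exceptional set of digital maps.
-/

set_option autoImplicit false

namespace Pool.Agent.Y353.FD

open Finset Filter
open Pool.Agent.TH194.BL Pool.Agent.TH194.BL.W

/-- The exceptional tuples, group form: a coordinate is zero, or some combination of `M` elements of
the multiplicative group generated by the `A l`, with integral coefficients of absolute value at
most `C` and nonzero sum, vanishes. -/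
def ExcG (k M : ℕ) (C : ℝ) : Set (Fin k → ℤ) :=
  {A | (∃ l, A l = 0) ∨ ∃ (x : Fin M → Fin k → ℤ) (c : Fin M → ℤ), (∀ i, |(c i : ℝ)| ≤ C) ∧
    ∑ i, c i ≠ 0 ∧ ∑ i, (c i : ℚ) * ∏ l, (A l : ℚ) ^ x i l = 0}

theorem clear_den {k M : ℕ} {A : Fin k → ℤ} (hA : ∀ l, A l ≠ 0)
    {x : Fin M → Fin k → ℤ} {c : Fin M → ℤ}
    (h : ∑ i, (c i : ℚ) * ∏ l, (A l : ℚ) ^ x i l = 0) :
    ∃ y : Fin M → Fin k → ℕ, ∑ i, c i * ∏ l, A l ^ y i l = 0 := by
  set s : ℕ := ∑ i, ∑ l, (x i l).natAbs with hs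
  have hle : ∀ i l, (x i l).natAbs ≤ s := by
    intro i l
    calc (x i l).natAbs ≤ ∑ l, (x i l).natAbs :=
          single_le_sum (f := fun l => (x i l).natAbs) (fun _ _ => Nat.zero_le _) (mem_univ l)
      _ ≤ s := single_le_sum (f := fun i => ∑ l, (x i l).natAbs) (fun _ _ => Nat.zero_le _)
          (mem_univ i)
  refine ⟨fun i l => (x i l + s).toNat, ?_⟩
  have hcast : ((∑ i, c i * ∏ l, A l ^ (x i l + s).toNat : ℤ) : ℚ) = 0 := by
    push_cast
    have e1 : ∀ i, ∏ l, (A l : ℚ) ^ (x i l + s).toNat =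
        (∏ l, (A l : ℚ) ^ x i l) * ∏ l, (A l : ℚ) ^ s := by
      intro i
      rw [← prod_mul_distrib]
      apply prod_congr rfl
      intro l _
      have hl : (A l : ℚ) ≠ 0 := by exact_mod_cast hA l
      rw [← zpow_natCast (A l : ℚ) (x i l + s).toNat, ← zpow_natCast (A l : ℚ) s, ← zpow_add₀ hl]
      congr 1
      have := hle i l
      omega
    have e2 : ∑ i, (c i : ℚ) * ∏ l, (A l : ℚ) ^ (x i l + s).toNat =
        (∑ i, (c i : ℚ) * ∏ l, (A l : ℚ) ^ x i l) * ∏ l, (A l : ℚ) ^ s := by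
      rw [sum_mul]
      apply sum_congr rfl
      intro i _
      rw [e1, mul_assoc]
    rw [e2, h, zero_mul]
  exact_mod_cast hcast

theorem ExcG_sub {k M N : ℕ} {ε C : ℝ} (hC : C ≤ Real.exp (Real.log N ^ (1 - ε))) :
    ExcG k M C ⊆ ExcZ k M (HH N ε) := by
  rintro A hA
  rcases hA with h | ⟨x, c, h1, h2, h3⟩
  · exact Or.inl h
  by_cases h0 : ∃ l, A l = 0
  · exact Or.inl h0
  push Not at h0
  obtain ⟨y, hy⟩ := clear_den h0 h3
  refine Or.inr ⟨y, c, fun i => ?_, h2, hy⟩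
  unfold HH
  have h6 : ((|c i|).toNat : ℝ) ≤ Real.exp (Real.log N ^ (1 - ε)) := by
    have : ((|c i|).toNat : ℝ) = |(c i : ℝ)| := by
      have e1 : (((|c i|).toNat : ℤ) : ℝ) = ((|c i| : ℤ) : ℝ) := by
        rw [Int.toNat_of_nonneg (abs_nonneg _)]
      rw [Int.cast_natCast] at e1
      rw [e1, Int.cast_abs]
    rw [this]
    exact (h1 i).trans hC
  have h7 := Nat.le_floor h6
  have h8 : |c i| = ((|c i|).toNat : ℤ) := (Int.toNat_of_nonneg (abs_nonneg _)).symm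
  rw [h8]
  exact_mod_cast h7

/-- numerical facts about `NN` -/
theorem ev_NN (k : ℕ) {B : ℕ} (hB : 0 < B) {κ : ℝ} (hκ : 0 < κ) (N₀ Wd : ℕ) {ε ε' : ℝ} (hε : 0 < ε)
    (h0' : 0 < ε') (h1' : ε' ≤ ε) (h2' : ε' ≤ 1 / 8) : ∀ᶠ L : ℕ in atTop,
    N₀ ≤ NN k B κ L ∧ Real.log Wd ≤ Real.log (NN k B κ L) * Real.log 2 ∧
    (c0 k B κ / 2) * √L ≤ Real.log (NN k B κ L) ∧
    Real.exp ((L : ℝ) ^ (1 / 2 - ε)) ≤ Real.exp (Real.log (NN k B κ L) ^ (1 - ε')) := by
  have hc0 := c0_pos k hB hκ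
  set c := c0 k B κ with hc
  have hN := tendsto_NN k hB hκ
  have hlogN : Tendsto (fun L : ℕ => Real.log (NN k B κ L)) atTop atTop :=
    Real.tendsto_log_atTop.comp (tendsto_natCast_atTop_atTop.comp hN)
  have t1 : ∀ᶠ L : ℕ in atTop, N₀ ≤ NN k B κ L := hN.eventually_ge_atTop _
  have t2 : ∀ᶠ L : ℕ in atTop, Real.log Wd ≤ Real.log (NN k B κ L) * Real.log 2 :=
    (hlogN.atTop_mul_const (Real.log_pos (by norm_num))).eventually_ge_atTop _
  have t3 : ∀ᶠ L : ℕ in atTop, 2 * Real.log 2 ≤ c * √L :=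
    (tendsto_sqrt_nat.const_mul_atTop hc0).eventually_ge_atTop _
  have t4 : ∀ᶠ L : ℕ in atTop, 1 / (c / 2) ^ (1 - ε') ≤ √(L : ℝ) ^ (2 * ε - ε') :=
    ((tendsto_rpow_atTop (by linarith)).comp tendsto_sqrt_nat).eventually_ge_atTop _
  filter_upwards [t1, t2, t3, t4, eventually_gt_atTop 0] with L h1 h2 h3 h4 hL0
  have hLr : (0 : ℝ) < L := by exact_mod_cast hL0
  set x := √(L : ℝ) with hx
  have hx0 : 0 < x := Real.sqrt_pos.2 hLr
  have hfl : Real.exp (c * x) / 2 ≤ ((NN k B κ L : ℕ) : ℝ) := by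
    have e1 : Real.exp (c * x) < ((NN k B κ L : ℕ) : ℝ) + 1 := Nat.lt_floor_add_one _
    have e2 : (2 : ℝ) ≤ Real.exp (c * x) := by
      have : Real.exp (Real.log 2) ≤ Real.exp (c * x) := by
        apply Real.exp_le_exp.2
        have := Real.log_pos (show (1 : ℝ) < 2 by norm_num)
        linarith
      rwa [Real.exp_log (by norm_num)] at this
    linarith
  have hlog : (c / 2) * x ≤ Real.log (NN k B κ L) := by
    have e1 := Real.log_le_log (by positivity) hfl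
    rw [Real.log_div (Real.exp_pos _).ne' (by norm_num), Real.log_exp] at e1
    linarith
  refine ⟨h1, h2, hlog, ?_⟩
  apply Real.exp_le_exp.2
  calc (L : ℝ) ^ (1 / 2 - ε) = x ^ (1 - 2 * ε) := by
        rw [hx, Real.sqrt_eq_rpow, ← Real.rpow_mul hLr.le]
        congr 1
        ring
    _ ≤ ((c / 2) * x) ^ (1 - ε') := by
        rw [Real.mul_rpow (by positivity) hx0.le]
        have e1 : x ^ (1 - ε') = x ^ (1 - 2 * ε) * x ^ (2 * ε - ε') := by
          rw [← Real.rpow_add hx0]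
          congr 1
          ring
        rw [e1]
        have e2 : 0 < (c / 2) ^ (1 - ε') := by positivity
        rw [div_le_iff₀ e2] at h4
        have e3 : 0 < x ^ (1 - 2 * ε) := by positivity
        nlinarith
    _ ≤ _ := Real.rpow_le_rpow (by positivity) hlog (by linarith)

open Classical in
/-- **The exceptional set of digital maps.** -/
theorem digits_exc (k M : ℕ) (hM : 1 ≤ M) (A0 B : ℕ) (hB : 0 < B) (κ : ℝ) (hκ : 0 < κ) (Wd : ℕ)
    (hWd : 0 < Wd) {ε : ℝ} (hε : 0 < ε) : ∀ᶠ L : ℕ in atTop,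
    ∀ {ι : Type} [Fintype ι] [DecidableEq ι] (D : ι → Finset ℤ) (v : ι → Fin k → ℤ),
    ManyGood Wd A0 B κ L D v →
    (((Fintype.piFinset D).filter
      (fun ω => lin v ω ∈ ExcG k M (Real.exp ((L : ℝ) ^ (1 / 2 - ε))))).card : ℝ) ≤
      Real.exp (-(c0 k B κ / 16) * √L) * (Fintype.piFinset D).card := by
  set ε' : ℝ := min ε (1 / 8) with hε'
  have h0' : 0 < ε' := lt_min hε (by norm_num)
  have h1' : ε' ≤ ε := min_le_left _ _
  have h2' : ε' ≤ 1 / 8 := min_le_right _ _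
  obtain ⟨N₀, hN₀⟩ := one_meas k M hM h0' h2'
  filter_upwards [fd_digits k A0 B hB κ hκ, ev_NN k hB hκ (max N₀ 1) Wd hε h0' h1' h2'] with L h1 h2
    ι _ _ D v hgood
  obtain ⟨h3, h4, h5, h6⟩ := h2
  have hfd := h1 Wd D v hgood
  have hmain := hN₀ (NN k B κ L) ((le_max_left _ _).trans h3) Wd hWd h4 (Fintype.piFinset D)
    (fun ω => lin v ω) (fun m hm hmN hmW b hb => hfd m hm hmN hmW b hb)
  have hN1 : 1 ≤ NN k B κ L := (le_max_right _ _).trans h3
  have hN0 : (0 : ℝ) < (NN k B κ L : ℕ) := by exact_mod_cast hN1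
  calc (((Fintype.piFinset D).filter
      (fun ω => lin v ω ∈ ExcG k M (Real.exp ((L : ℝ) ^ (1 / 2 - ε))))).card : ℝ)
      ≤ (((Fintype.piFinset D).filter
        (fun ω => lin v ω ∈ ExcZ k M (HH (NN k B κ L) ε'))).card : ℝ) := by
        apply Nat.cast_le.2
        apply card_le_card
        intro ω hω
        rw [mem_filter] at hω ⊢
        exact ⟨hω.1, ExcG_sub h6 hω.2⟩
    _ ≤ ((NN k B κ L : ℕ) : ℝ) ^ (-(1 / 4) + ε') * (Fintype.piFinset D).card := hmain
    _ ≤ Real.exp (-(c0 k B κ / 16) * √L) * (Fintype.piFinset D).card := by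
        apply mul_le_mul_of_nonneg_right _ (Nat.cast_nonneg _)
        rw [Real.rpow_def_of_pos hN0]
        apply Real.exp_le_exp.2
        have hc0 := c0_pos k hB hκ
        have hx0 : 0 ≤ √(L : ℝ) := Real.sqrt_nonneg _
        have e1 : 0 ≤ (c0 k B κ / 2) * √(L : ℝ) := by positivity
        have e2 : Real.log (NN k B κ L) * (-(1 / 4) + ε') ≤
            Real.log (NN k B κ L) * (-(1 / 8)) := by
          apply mul_le_mul_of_nonneg_left _ (e1.trans h5)
          linarith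
        linarith

end Pool.Agent.Y353.FD
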