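import Pool.Agent.Y353.FD.Top
import Pool.Agent.Y353.FD.ParamQ

/-!
Project FD (helper353): perfect powers; the exceptional set of digital maps.
-/

set_option autoImplicit false

namespace Pool.Agent.Y353.FD

open Finset Filter
open Pool.Agent.TH194.BL Pool.Agent.TH194.BL.W

theorem ev_loglog {c : ℝ} (hc : 0 < c) (Bq : ℕ) : ∀ᶠ L : ℕ in atTop, ∀ y : ℝ, c * √L ≤ y →
    Real.log L ^ Bq ≤ Real.log y ^ (Bq + 1) := by
  have hlog : Tendsto (fun L : ℕ => Real.log L) atTop atTop :=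
    Real.tendsto_log_atTop.comp tendsto_natCast_atTop_atTop
  have t1 : ∀ᶠ L : ℕ in atTop, (4 : ℝ) ^ (Bq + 1) ≤ Real.log L := hlog.eventually_ge_atTop _
  have t2 : ∀ᶠ L : ℕ in atTop, -(4 * Real.log c) ≤ Real.log L := hlog.eventually_ge_atTop _
  filter_upwards [t1, t2, eventually_gt_atTop 0] with L h1 h2 hL0 y hy
  have hLr : (0 : ℝ) < L := by exact_mod_cast hL0
  have hx0 : 0 < √(L : ℝ) := Real.sqrt_pos.2 hLr
  have h4 : (0 : ℝ) < 4 ^ (Bq + 1) := by positivity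
  have hl0 : 0 < Real.log L := by linarith
  have e1 : Real.log L / 4 ≤ Real.log y := by
    have e2 := Real.log_le_log (by positivity) hy
    rw [Real.log_mul hc.ne' hx0.ne', Real.log_sqrt hLr.le] at e2
    linarith
  calc Real.log L ^ Bq = Real.log L ^ Bq * 1 := by ring
    _ ≤ Real.log L ^ Bq * (Real.log L / 4 ^ (Bq + 1)) := by
        apply mul_le_mul_of_nonneg_left _ (by positivity)
        rw [le_div_iff₀ h4]
        linarith
    _ = (Real.log L / 4) ^ (Bq + 1) := by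
        rw [div_pow, pow_succ (Real.log (L : ℝ))]
        ring
    _ ≤ _ := pow_le_pow_left₀ (by positivity) e1 _

open Classical in
/-- **The exceptional set of digital maps, perfect powers.** -/
theorem digits_excQ (k A0 B : ℕ) (hB : 0 < B) (κ : ℝ) (hκ : 0 < κ) (Wd : ℕ)
    (hWd : 0 < Wd) (Bq : ℕ) {ε : ℝ} (hε : 0 < ε) : ∀ᶠ L : ℕ in atTop,
    ∀ {ι : Type} [Fintype ι] [DecidableEq ι] (D : ι → Finset ℤ) (v : ι → Fin k → ℤ),
    ManyGood Wd A0 B κ L D v →
    (((Fintype.piFinset D).filter (fun ω => ∃ n q : ℕ, q.Prime ∧ q ∣ n ∧ (q : ℝ) ≤ Real.log L ^ Bq ∧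
      lin v ω ∈ ExcN k n ((L : ℝ) ^ (1 / 2 - ε)))).card : ℝ) ≤
      Real.exp (-(c0 k B κ / 16) * √L) * (Fintype.piFinset D).card := by
  set ε' : ℝ := min ε (1 / 8) with hε'
  have h0' : 0 < ε' := lt_min hε (by norm_num)
  have h1' : ε' ≤ ε := min_le_left _ _
  have h2' : ε' ≤ 1 / 8 := min_le_right _ _
  have hc0 := c0_pos k hB hκ
  obtain ⟨N₀, hN₀⟩ := meas_q k (Bq + 1) h0' h2'
  filter_upwards [fd_digits k A0 B hB κ hκ, ev_NN k hB hκ (max N₀ 1) Wd hε h0' h1' h2',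
    ev_loglog (show 0 < c0 k B κ / 2 by positivity) Bq] with L h1 h2 h7 ι _ _ D v hgood
  obtain ⟨h3, h4, h5, h6⟩ := h2
  have hfd := h1 Wd D v hgood
  have hmain := hN₀ (NN k B κ L) ((le_max_left _ _).trans h3) Wd hWd h4 (Fintype.piFinset D)
    (fun ω => lin v ω) (fun m hm hmN hmW b hb => hfd m hm hmN hmW b hb)
  have hN1 : 1 ≤ NN k B κ L := (le_max_right _ _).trans h3
  have hN0 : (0 : ℝ) < (NN k B κ L : ℕ) := by exact_mod_cast hN1
  calc (((Fintype.piFinset D).filter (fun ω => ∃ n q : ℕ, q.Prime ∧ q ∣ n ∧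
        (q : ℝ) ≤ Real.log L ^ Bq ∧ lin v ω ∈ ExcN k n ((L : ℝ) ^ (1 / 2 - ε)))).card : ℝ)
      ≤ (((Fintype.piFinset D).filter (fun ω => ∃ n q : ℕ, q.Prime ∧ q ∣ n ∧
        (q : ℝ) ≤ Real.log (Real.log (NN k B κ L)) ^ (Bq + 1) ∧
        lin v ω ∈ ExcN k n (Real.log (NN k B κ L) ^ (1 - ε')))).card : ℝ) := by
        apply Nat.cast_le.2
        apply card_le_card
        intro ω hω
        rw [mem_filter] at hω ⊢
        obtain ⟨hω1, n, q, g1, g2, g3, A, g4, g5⟩ := hω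
        exact ⟨hω1, n, q, g1, g2, g3.trans (h7 _ h5), A, g4, Exc_mono (Real.exp_le_exp.1 h6) g5⟩
    _ ≤ ((NN k B κ L : ℕ) : ℝ) ^ (-(1 / 4) + ε') * (Fintype.piFinset D).card := hmain
    _ ≤ Real.exp (-(c0 k B κ / 16) * √L) * (Fintype.piFinset D).card := by
        apply mul_le_mul_of_nonneg_right _ (Nat.cast_nonneg _)
        rw [Real.rpow_def_of_pos hN0]
        apply Real.exp_le_exp.2
        have hx0 : 0 ≤ √(L : ℝ) := Real.sqrt_nonneg _
        have e1 : 0 ≤ (c0 k B κ / 2) * √(L : ℝ) := by positivity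
        have e2 : Real.log (NN k B κ L) * (-(1 / 4) + ε') ≤
            Real.log (NN k B κ L) * (-(1 / 8)) := by
          apply mul_le_mul_of_nonneg_left _ (e1.trans h5)
          linarith
        linarith

end Pool.Agent.Y353.FD
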